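import Pool.Agent.Q210.MM.Cheb
import Pool.Agent.Q166.MM.A1
import Pool.Agent.Q150.MM.A2
import Pool.Agent.Q150.MM.A3
import Pool.Agent.Q26.MM.A4
import Pool.Agent.Q211.MM.A5
import Pool.Agent.Q211.MM.A6
import Pool.Agent.Q151.MM.B12
import Pool.Agent.Q24.MM.B3
import Pool.Agent.Q24.MM.M1
import Pool.Agent.Q211.MM.D0
import Pool.Agent.Q211.MM.D3
import Pool.Agent.Q211.MM.C1
import Pool.Agent.Q211.MM.R1
import Pool.Agent.Q24.MM.R2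
import Pool.Agent.Q24.MM.B4
import Pool.Agent.Q95.MM.B6
import Pool.Agent.Q195.MM.A8

/-!
# The analytic part
-/

set_option autoImplicit false

namespace Pool.Agent.Q147.MM

open Finset Filter Topology
open Pool.Agent.Q95.MM (cnt_le_self one_mem_Sk cnt_Sk_pos upto_mono upto_diff sum_diff cnt_diff)

theorem cheb : S_CHEB := Pool.Agent.Q210.MM.t_CHEB

theorem d0 : ∀ k M : ℕ, ∃ C : ℝ, 0 < C ∧ ∀ x y : ℕ, 1 ≤ x → y ≤ x ^ M →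
  ∑ n ∈ (upto (Sk (k + 1)) y).filter (fun n => x < n), (1 : ℝ) / n ≤ C * T k y :=
  Pool.Agent.Q211.MM.t_D0 Pool.Agent.Q24.MM.t_M1

theorem d1 : ∀ k M : ℕ, ∃ C : ℝ, 0 < C ∧ ∀ x : ℕ, 1 ≤ x → T k (x ^ M) ≤ C * T k x :=
  Pool.Agent.Q210.MM.t_D1 d0

theorem d3 : ∀ k : ℕ, Tendsto (fun x : ℕ => T k x / T (k + 1) x) atTop (𝓝 0) :=
  Pool.Agent.Q211.MM.t_D3 Pool.Agent.Q24.MM.t_B3 d1

theorem c1 : ∀ k : ℕ, ∃ c : ℝ, 0 < c ∧ ∃ N1 : ℕ, ∀ N : ℕ, N1 ≤ N →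
    c * (N / Real.log N) * T k N ≤ cnt (Sk (k + 1)) N :=
  Pool.Agent.Q211.MM.t_C1 cheb Pool.Agent.Q151.MM.t_B2 d1

theorem r1 : ∀ k : ℕ, ∃ C : ℝ, 0 < C ∧ ∃ N1 : ℕ, ∀ N : ℕ, N1 ≤ N →
    ((Bad (k + 2) N).card : ℝ) ≤ C * (N / Real.log N) * T k N :=
  Pool.Agent.Q211.MM.t_R1 cheb d0

theorem b4 : (∀ k : ℕ, Tendsto (fun N : ℕ => ((zz N : ℝ) ^ 2) / cnt (Sk (k + 1)) N) atTop (𝓝 0)) ∧
  (∀ k : ℕ, 1 ≤ k →
    Tendsto (fun N : ℕ => ((Bad (k + 1) N).card : ℝ) / cnt (Sk (k + 1)) N) atTop (𝓝 0)) ∧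
  (∀ k : ℕ, 1 ≤ k →
    Tendsto (fun N : ℕ => (Nat.primeCounting N : ℝ) / cnt (Sk (k + 1)) N) atTop (𝓝 0)) :=
  Pool.Agent.Q24.MM.t_B4 cheb c1 r1 d3

theorem a5 : ∀ κ : ℝ, 0 < κ → κ < 1 →
  (∃ I : ℕ, 1 < ∑ i ∈ range I, (1 / 2 : ℝ) ^ ((i : ℝ) + 1 - κ) / ((i : ℝ) + 1 - κ)) →
  ∃ δ : ℝ, 0 < δ ∧ ∃ N1 : ℕ, ∀ N : ℕ, N1 ≤ N → ∀ c : ℝ, 0 ≤ c → ∀ B : Set ℕ,
    (∀ y : ℕ, 2 ≤ y → y < N → c * (y / (Real.log y) ^ κ) ≤ (cnt B y : ℝ)) →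
    (1 + δ) * c * (N / (Real.log N) ^ κ) ≤
      ∑ a ∈ upto B (zz N), (Nat.primeCounting (N / a) : ℝ) :=
  Pool.Agent.Q211.MM.t_A5 Pool.Agent.Q166.MM.t_A1 Pool.Agent.Q150.MM.t_A2
  Pool.Agent.Q150.MM.t_A3 Pool.Agent.Q26.MM.t_A4

theorem a5' : ∃ δ : ℝ, 0 < δ ∧ ∃ N1 : ℕ, ∀ N : ℕ, N1 ≤ N → ∀ c : ℝ, 0 ≤ c → ∀ B : Set ℕ,
    (∀ y : ℕ, 2 ≤ y → y < N → c * (y / (Real.log y) ^ (9 / 40 : ℝ)) ≤ (cnt B y : ℝ)) →
    (1 + δ) * c * (N / (Real.log N) ^ (9 / 40 : ℝ)) ≤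
      ∑ a ∈ upto B (zz N), (Nat.primeCounting (N / a) : ℝ) :=
  a5 (9 / 40) (by norm_num) (by norm_num) ⟨10, Pool.Agent.Q26.MM.t_A7⟩

/-- **All degrees.** -/
theorem partA (B : Set ℕ) (h1 : ∀ N : ℕ, Nat.primeCounting N ≤ cnt B N)
    (h2 : ∀ z N : ℕ, ∑ a ∈ upto B z, Nat.primeCounting (N / a) ≤ cnt B N + z ^ 2) :
    ∃ c : ℝ, 0 < c ∧ ∀ N : ℕ, 2 ≤ N → c * (N / (Real.log N) ^ (9 / 40 : ℝ)) ≤ (cnt B N : ℝ) :=
  Pool.Agent.Q211.MM.t_A6 cheb (9 / 40) (by norm_num) (by norm_num) a5' B h1 h2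

/-- **All degrees, one more step.** -/
theorem partA' (B B' : Set ℕ)
    (h1 : ∃ c : ℝ, 0 < c ∧ ∀ N : ℕ, 2 ≤ N → c * (N / (Real.log N) ^ (9 / 40 : ℝ)) ≤ (cnt B N : ℝ))
    (h2 : ∀ z N : ℕ, ∑ a ∈ upto B z, Nat.primeCounting (N / a) ≤
      cnt B' N + Nat.primeCounting N + z ^ 2) :
    ∃ c : ℝ, 0 < c ∧ ∃ N0 : ℕ, ∀ N : ℕ, N0 ≤ N →
      c * (N / (Real.log N) ^ (9 / 40 : ℝ)) ≤ (cnt B' N : ℝ) :=
  Pool.Agent.Q195.MM.t_A8 cheb (9 / 40) (by norm_num) (by norm_num) a5' B B' h1 h2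

theorem negl_one (k : ℕ) (hk : 1 ≤ k) :
    Tendsto (fun N : ℕ => (1 : ℝ) / cnt (Sk (k + 1)) N) atTop (𝓝 0) := by
  apply squeeze_zero' (g := fun N : ℕ => (Nat.primeCounting N : ℝ) / cnt (Sk (k + 1)) N)
  · exact Eventually.of_forall fun N => by positivity
  · filter_upwards [eventually_ge_atTop 2] with N hN
    apply div_le_div_of_nonneg_right _ (Nat.cast_nonneg _)
    have : 1 ≤ Nat.primeCounting N := by
      have h1 := Nat.monotone_primeCounting hN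
      have h2 : Nat.primeCounting 2 = 1 := by decide
      omega
    exact_mod_cast this
  · exact b4.2.2 k hk

/-- **Degree at most `k`: the step.** -/
theorem step (k : ℕ) (hk : 1 ≤ k) (A : Set ℕ) (hA : A ⊆ Sk k)
    (hlim : Tendsto (fun N : ℕ => (cnt A N : ℝ) / cnt (Sk k) N) atTop (𝓝 1)) (ε : ℝ) (hε : 0 < ε)
    (hε1 : ε < 1) :
    ∀ᶠ N : ℕ in atTop, (1 - ε) * (cnt (Sk (k + 1)) N : ℝ) ≤
      ∑ a ∈ upto A (zz N), (Nat.primeCounting (N / a) : ℝ) := by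
  have hM : ∀ ε : ℝ, 0 < ε → ∃ Y : ℕ, ∀ y : ℕ, 1 ≤ y →
      (cnt (Sk k \ A) y : ℝ) ≤ ε * cnt (Sk k) y + Y := by
    intro ε hε
    have h1 : ∀ᶠ N : ℕ in atTop, 1 - ε < (cnt A N : ℝ) / cnt (Sk k) N :=
      (tendsto_order.1 hlim).1 _ (by linarith)
    obtain ⟨Y, hY⟩ := eventually_atTop.1 h1
    refine ⟨Y, fun y hy => ?_⟩
    have hpos : (0 : ℝ) < cnt (Sk k) y := by exact_mod_cast cnt_Sk_pos k y hy
    rcases le_total Y y with h | h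
    · have h2 := hY y h
      rw [lt_div_iff₀ hpos] at h2
      rw [cnt_diff hA]
      have h3 : (0 : ℝ) ≤ Y := Nat.cast_nonneg _
      linarith
    · have h2 : (cnt (Sk k \ A) y : ℝ) ≤ y := by exact_mod_cast cnt_le_self _ _
      have h3 : (y : ℝ) ≤ Y := by exact_mod_cast h
      have h4 : 0 ≤ ε * cnt (Sk k) y := by positivity
      linarith
  set η : ℝ := ε / 2 with hη
  obtain ⟨Y, hY⟩ := hM η (by positivity)
  have herr : Tendsto (fun N : ℕ => (1 : ℝ) / cnt (Sk (k + 1)) N +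
      ((Bad (k + 1) N).card : ℝ) / cnt (Sk (k + 1)) N +
      (Y : ℝ) * ((Nat.primeCounting N : ℝ) / cnt (Sk (k + 1)) N)) atTop (𝓝 0) := by
    have := ((negl_one k hk).add (b4.2.1 k hk)).add ((b4.2.2 k hk).const_mul (Y : ℝ))
    simpa using this
  have h1 := (tendsto_order.1 herr).2 η (by positivity)
  filter_upwards [h1, eventually_ge_atTop 1] with N hN hN1
  set f : ℕ → ℝ := fun a => (Nat.primeCounting (N / a) : ℝ) with hf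
  have e1 := Pool.Agent.Q151.MM.t_B1 (Sk k \ A) (Sk k) f η Y (zz N) (Nat.cast_nonneg _)
    (Nat.cast_nonneg _) (fun y hy _ => hY y hy)
    (fun y hy _ => by
      simp only [hf]
      exact_mod_cast Nat.monotone_primeCounting (Nat.div_le_div_left (Nat.le_succ y) hy))
    (Nat.cast_nonneg _)
  rw [sum_diff hA] at e1
  have e2 : f 1 = Nat.primeCounting N := by simp only [hf, Nat.div_one]
  rw [e2] at e1
  have e4 : (cnt (Sk (k + 1)) N : ℝ) ≤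
      1 + ∑ a ∈ upto (Sk k) (zz N), f a + (Bad (k + 1) N).card := by
    simp only [hf]
    exact_mod_cast Pool.Agent.Q24.MM.t_R2 k N
  have e5 : 0 ≤ (1 - η) * (1 + ∑ a ∈ upto (Sk k) (zz N), f a + (Bad (k + 1) N).card -
      cnt (Sk (k + 1)) N) := mul_nonneg (by linarith) (by linarith)
  have e6 : 0 ≤ η * (1 + ((Bad (k + 1) N).card : ℝ)) := by positivity
  have hpos : (0 : ℝ) < cnt (Sk (k + 1)) N := by exact_mod_cast cnt_Sk_pos (k + 1) N hN1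
  have h3 : (cnt (Sk (k + 1)) N : ℝ) * (1 / cnt (Sk (k + 1)) N +
      ((Bad (k + 1) N).card : ℝ) / cnt (Sk (k + 1)) N +
      (Y : ℝ) * ((Nat.primeCounting N : ℝ) / cnt (Sk (k + 1)) N)) =
      1 + (Bad (k + 1) N).card + Y * Nat.primeCounting N := by
    field_simp
  have h4 := mul_lt_mul_of_pos_left hN hpos
  rw [h3] at h4
  have e7 : (cnt (Sk (k + 1)) N : ℝ) * η = ε / 2 * cnt (Sk (k + 1)) N := by rw [hη]; ring
  have e8 : (1 - ε) * (cnt (Sk (k + 1)) N : ℝ) =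
    cnt (Sk (k + 1)) N - η * cnt (Sk (k + 1)) N - (cnt (Sk (k + 1)) N : ℝ) * η := by
    rw [hη]; ring
  rw [e8]
  linarith

/-- the error terms are negligible -/
theorem negl_err (k : ℕ) (hk : 1 ≤ k) (a b : ℝ) :
    Tendsto (fun N : ℕ => (a * Nat.primeCounting N + b * (zz N : ℝ) ^ 2) / cnt (Sk (k + 1)) N)
      atTop (𝓝 0) := by
  have := ((b4.2.2 k hk).const_mul a).add ((b4.1 k).const_mul b)
  simp only [mul_zero, add_zero] at this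
  refine this.congr fun N => ?_
  rw [add_div, mul_div_assoc, mul_div_assoc]

end Pool.Agent.Q147.MM
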