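import Pool.Agent.Q147.MM.Defs
import Pool.Agent.Y787.Base

/-!
# The hyperplane theorem on multiplication tables

`lam l n` is the product of `l p ^ v_p(n)`. If the numbers `x a` (`a ∈ A`) are linearly
independent over the algebraic numbers, then the products `x a * lam l q` (`q ∈ Q a`, `q = 1` or
prime) span a space of dimension at least `∑ |Q a| - |A| (|A| - 1)`, also modulo the space `Lt`
(if `1` is one of the `x a`, and this `a` is left out).
-/

set_option autoImplicit false

namespace Pool.Agent.Q147.MM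

open Module Finset
open Pool.Agent.Y787 (QC mem_QC HypC)

section Lam

variable {Cc : Type} [Field Cc]

/-- the monomial `∏ p, l p ^ v_p(n)` -/
noncomputable def lam (l : ℕ → Cc) (n : ℕ) : Cc := n.factorization.prod fun p e => l p ^ e

theorem lam_one (l : ℕ → Cc) : lam l 1 = 1 := by
  simp [lam]

theorem lam_prime (l : ℕ → Cc) {p : ℕ} (hp : p.Prime) : lam l p = l p := by
  simp [lam, hp.factorization]

theorem lam_mul (l : ℕ → Cc) {a b : ℕ} (ha : a ≠ 0) (hb : b ≠ 0) :
    lam l (a * b) = lam l a * lam l b := by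
  rw [lam, Nat.factorization_mul ha hb]
  exact Finsupp.prod_add_index' (fun _ => pow_zero _) fun _ _ _ => pow_add _ _ _

end Lam

variable {Cc : Type} [Field Cc] [CharZero Cc]

/-- `1` or prime -/
abbrev Q1 : Set ℕ := {q | q = 1 ∨ q.Prime}

/-- `l` gives elements of `Lt`, and `1` and the `l p` are linearly independent -/
structure Good (Lt : Submodule (QC Cc) Cc) (l : ℕ → Cc) : Prop where
  mem : ∀ p : ℕ, p.Prime → l p ∈ Lt
  li : LinearIndepOn (QC Cc) (lam l) Q1

variable {Lt : Submodule (QC Cc) Cc} [HypC Lt] {l : ℕ → Cc}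

theorem Good.mem' (h : Good Lt l) {q : ℕ} (hq : q ∈ Q1) : lam l q ∈ Lt := by
  rcases hq with rfl | hq
  · rw [lam_one]; exact HypC.one
  · rw [lam_prime l hq]; exact h.mem q hq

/-- the hyperplane theorem with finite index types -/
theorem hypF {δ κ : Type*} [Fintype δ] [Fintype κ] (x : δ → Cc) (a : δ → κ → Cc)
    (hx : LinearIndependent (QC Cc) x) (ha : ∀ i j, a i j ∈ Lt) (hxa : ∀ j, ∑ i, x i * a i j = 0)
    (hcol : LinearIndependent (QC Cc) (fun j i => a i j)) :
    Fintype.card κ ≤ Fintype.card δ * (Fintype.card δ - 1) := by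
  let e := Fintype.equivFin δ
  refine Pool.Agent.Y787.hyperplane' (Lt := Lt) (Fintype.card δ) (fun i => x (e.symm i))
    (fun i j => a (e.symm i) j) (hx.comp e.symm e.symm.injective) (fun i j => ha _ _) ?_ ?_
  · intro j
    rw [← hxa j]
    exact Equiv.sum_comp e.symm (fun i => x i * a i j)
  · exact hcol.map' (LinearEquiv.funCongrLeft (QC Cc) Cc e.symm).toLinearMap
        (LinearEquiv.ker _)

variable {α : Type}

/-- **Core inequality.** -/
theorem core (h : Good Lt l) (A : Finset α) (x : α → Cc)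
    (hind : LinearIndepOn (QC Cc) x (A : Set α)) (Q : α → Finset ℕ)
    (hQ : ∀ a ∈ A, ∀ q ∈ Q a, q ∈ Q1) (U : Submodule (QC Cc) Cc) [FiniteDimensional (QC Cc) U]
    (hU : ∀ a ∈ A, ∀ q ∈ Q a, x a * lam l q ∈ U) :
    ∑ a ∈ A, (Q a).card ≤ finrank (QC Cc) U + A.card * (A.card - 1) := by
  classical
  let ι : Type := Σ a : A, Q a.1
  let G : (ι → (QC Cc)) →ₗ[(QC Cc)] (A → Cc) := LinearMap.pi fun a =>
    ∑ q : Q a.1, (LinearMap.proj (⟨a, q⟩ : ι)).smulRight (lam l q.1)
  have hG : ∀ c a, G c a = ∑ q : Q a.1, c ⟨a, q⟩ • lam l q.1 := by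
    intro c a
    simp [G, LinearMap.sum_apply]
  let F : (ι → (QC Cc)) →ₗ[(QC Cc)] Cc :=
    ∑ a : A, (LinearMap.mulLeft (QC Cc) (x a.1)) ∘ₗ (LinearMap.proj a) ∘ₗ G
  have hF : ∀ c, F c = ∑ a : A, x a.1 * G c a := by
    intro c
    simp [F, LinearMap.sum_apply]
  have hGi : LinearMap.ker G = ⊥ := by
    rw [LinearMap.ker_eq_bot']
    intro c hc
    funext y
    obtain ⟨a, q⟩ := y
    have h1 : ∑ q : Q a.1, c ⟨a, q⟩ • lam l q.1 = 0 := by
      rw [← hG, hc]; rfl
    have h2 : LinearIndependent (QC Cc) (fun q : Q a.1 => lam l q.1) := by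
      have h3 : LinearIndepOn (QC Cc) (lam l) ((Q a.1 : Finset ℕ) : Set ℕ) :=
        h.li.mono fun q hq => hQ a.1 a.2 q (by exact_mod_cast hq)
      exact h3
    exact Fintype.linearIndependent_iff.1 h2 (fun q => c ⟨a, q⟩) h1 q
  have hker : finrank (QC Cc) (LinearMap.ker F) ≤ A.card * (A.card - 1) := by
    let b := Module.finBasis (QC Cc) (LinearMap.ker F)
    have h1 := hypF (Lt := Lt) (fun a : A => x a.1)
      (fun a (j : Fin (finrank (QC Cc) (LinearMap.ker F))) => G (b j : ι → (QC Cc)) a)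
      hind ?_ ?_ ?_
    · simpa using h1
    · intro i j
      rw [hG]
      exact Submodule.sum_mem _ fun q _ => Submodule.smul_mem _ _ (h.mem' (hQ _ i.2 _ q.2))
    · intro j
      have h2 : F (b j : ι → (QC Cc)) = 0 := (b j).2
      rw [hF] at h2
      exact h2
    · have h2 : LinearIndependent (QC Cc)
          (fun j : Fin (finrank (QC Cc) (LinearMap.ker F)) => (b j : ι → (QC Cc))) :=
        b.linearIndependent.map' (LinearMap.ker F).subtype (Submodule.ker_subtype _)
      exact h2.map' G hGi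
  have hran : finrank (QC Cc) (LinearMap.range F) ≤ finrank (QC Cc) U := by
    refine Submodule.finrank_mono ?_
    rintro _ ⟨c, rfl⟩
    rw [hF]
    refine Submodule.sum_mem _ fun a _ => ?_
    rw [hG, Finset.mul_sum]
    refine Submodule.sum_mem _ fun q _ => ?_
    rw [mul_smul_comm]
    exact Submodule.smul_mem _ _ (hU a.1 a.2 q.1 q.2)
  have h5 := LinearMap.finrank_range_add_finrank_ker F
  rw [finrank_fintype_fun_eq_card] at h5
  have h6 : Fintype.card ι = ∑ a ∈ A, (Q a).card := by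
    rw [Fintype.card_sigma, ← Finset.sum_coe_sort A fun a => (Q a).card]
    exact Finset.sum_congr rfl fun a _ => Fintype.card_coe _
  omega

/-- **Core inequality modulo `Lt`.** -/
theorem coreM (h : Good Lt l) (A : Finset α) (x : α → Cc)
    (hind : LinearIndepOn (QC Cc) x (A : Set α))
    (h1 : (1 : Cc) ∉ Submodule.span (QC Cc) (x '' (A : Set α))) (Q : α → Finset ℕ)
    (hQ : ∀ a ∈ A, ∀ q ∈ Q a, q ∈ Q1) (U : Submodule (QC Cc) (Cc ⧸ Lt))
    [FiniteDimensional (QC Cc) U] (hU : ∀ a ∈ A, ∀ q ∈ Q a, Lt.mkQ (x a * lam l q) ∈ U) :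
    ∑ a ∈ A, (Q a).card ≤ finrank (QC Cc) U + (A.card + 1) * A.card := by
  classical
  let ι : Type := Σ a : A, Q a.1
  let G : (ι → (QC Cc)) →ₗ[(QC Cc)] (A → Cc) := LinearMap.pi fun a =>
    ∑ q : Q a.1, (LinearMap.proj (⟨a, q⟩ : ι)).smulRight (lam l q.1)
  have hG : ∀ c a, G c a = ∑ q : Q a.1, c ⟨a, q⟩ • lam l q.1 := by
    intro c a
    simp [G, LinearMap.sum_apply]
  let F : (ι → (QC Cc)) →ₗ[(QC Cc)] Cc :=
    ∑ a : A, (LinearMap.mulLeft (QC Cc) (x a.1)) ∘ₗ (LinearMap.proj a) ∘ₗ G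
  have hF : ∀ c, F c = ∑ a : A, x a.1 * G c a := by
    intro c
    simp [F, LinearMap.sum_apply]
  have hGi : LinearMap.ker G = ⊥ := by
    rw [LinearMap.ker_eq_bot']
    intro c hc
    funext y
    obtain ⟨a, q⟩ := y
    have h1 : ∑ q : Q a.1, c ⟨a, q⟩ • lam l q.1 = 0 := by
      rw [← hG, hc]; rfl
    have h2 : LinearIndependent (QC Cc) (fun q : Q a.1 => lam l q.1) := by
      have h3 : LinearIndepOn (QC Cc) (lam l) ((Q a.1 : Finset ℕ) : Set ℕ) :=
        h.li.mono fun q hq => hQ a.1 a.2 q (by exact_mod_cast hq)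
      exact h3
    exact Fintype.linearIndependent_iff.1 h2 (fun q => c ⟨a, q⟩) h1 q
  let F' := Lt.mkQ ∘ₗ F
  have hker : finrank (QC Cc) (LinearMap.ker F') ≤ (A.card + 1) * A.card := by
    let b := Module.finBasis (QC Cc) (LinearMap.ker F')
    let x' : Option A → Cc := fun o => o.elim 1 (fun a => x a.1)
    let y : Option A → Fin (finrank (QC Cc) (LinearMap.ker F')) → Cc := fun o j =>
      o.elim (-F (b j : ι → (QC Cc))) (fun a => G (b j : ι → (QC Cc)) a)
    have hbF : ∀ j, F (b j : ι → (QC Cc)) ∈ Lt := by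
      intro j
      have h2 : F' (b j : ι → (QC Cc)) = 0 := (b j).2
      exact (Submodule.Quotient.mk_eq_zero Lt).1 h2
    have h3 := hypF (Lt := Lt) x' y ?_ ?_ ?_ ?_
    · simpa using h3
    · rw [linearIndependent_option]
      refine ⟨hind, ?_⟩
      have h5 : Set.range (x' ∘ (some : A → Option A)) = x '' (A : Set α) := by
        ext z
        constructor
        · rintro ⟨a, rfl⟩
          exact ⟨a.1, by exact_mod_cast a.2, rfl⟩
        · rintro ⟨a, ha, rfl⟩
          exact ⟨⟨a, by exact_mod_cast ha⟩, rfl⟩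
      exact h5 ▸ h1
    · rintro (_ | a) j
      · exact Lt.neg_mem (hbF j)
      · show G (b j : ι → (QC Cc)) a ∈ Lt
        rw [hG]
        exact Submodule.sum_mem _ fun q _ => Submodule.smul_mem _ _ (h.mem' (hQ _ a.2 _ q.2))
    · intro j
      rw [Fintype.sum_option]
      show (1 : Cc) * (-F (b j : ι → (QC Cc))) + ∑ a : A, x a.1 * G (b j : ι → (QC Cc)) a = 0
      rw [← hF]
      ring
    · have h2 : LinearIndependent (QC Cc)
          (fun j : Fin (finrank (QC Cc) (LinearMap.ker F')) => (b j : ι → (QC Cc))) :=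
        b.linearIndependent.map' (LinearMap.ker F').subtype (Submodule.ker_subtype _)
      have h3 := h2.map' G hGi
      exact LinearIndependent.of_comp (LinearMap.funLeft (QC Cc) Cc (some : A → Option A)) h3
  have hran : finrank (QC Cc) (LinearMap.range F') ≤ finrank (QC Cc) U := by
    refine Submodule.finrank_mono ?_
    rintro _ ⟨c, rfl⟩
    show Lt.mkQ (F c) ∈ _
    rw [hF, map_sum]
    refine Submodule.sum_mem _ fun a _ => ?_
    rw [hG, Finset.mul_sum, map_sum]
    refine Submodule.sum_mem _ fun q _ => ?_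
    rw [mul_smul_comm, map_smul]
    exact Submodule.smul_mem _ _ (hU a.1 a.2 q.1 q.2)
  have h5 := LinearMap.finrank_range_add_finrank_ker F'
  rw [finrank_fintype_fun_eq_card] at h5
  have h6 : Fintype.card ι = ∑ a ∈ A, (Q a).card := by
    rw [Fintype.card_sigma, ← Finset.sum_coe_sort A fun a => (Q a).card]
    exact Finset.sum_congr rfl fun a _ => Fintype.card_coe _
  omega

end Pool.Agent.Q147.MM
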