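import Mathlib

/-!
# Monomials in logarithms: counting functions
-/

set_option autoImplicit false

namespace Pool.Agent.Q147.MM

open Finset

open scoped Classical in
/-- the elements `a` of `B` with `1 ≤ a ≤ N` -/
noncomputable def upto (B : Set ℕ) (N : ℕ) : Finset ℕ := (Icc 1 N).filter (fun a => a ∈ B)

/-- number of elements `a` of `B` with `1 ≤ a ≤ N` -/
noncomputable def cnt (B : Set ℕ) (N : ℕ) : ℕ := (upto B N).card

/-- the positive integers with at most `k` prime factors, counted with multiplicity -/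
def Sk (k : ℕ) : Set ℕ := {n | n ≠ 0 ∧ ArithmeticFunction.cardFactors n ≤ k}

/-- sum of the inverses of the elements `≤ x` of `Sk k` -/
noncomputable def T (k x : ℕ) : ℝ := ∑ m ∈ upto (Sk k) x, (1 : ℝ) / m

/-- sum of the inverses of the primes `≤ x` -/
noncomputable def sp (x : ℕ) : ℝ := ∑ p ∈ (Icc 1 x).filter Nat.Prime, (1 : ℝ) / p

/-- the integer part of `√N / log N` -/
noncomputable def zz (N : ℕ) : ℕ := ⌊√(N : ℝ) / Real.log N⌋₊

theorem mem_upto {B : Set ℕ} {N a : ℕ} : a ∈ upto B N ↔ (1 ≤ a ∧ a ≤ N) ∧ a ∈ B := by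
  classical
  simp [upto]

end Pool.Agent.Q147.MM
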