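import Pool.Agent.Q147.MM.GreedyG
import Pool.Agent.Q147.MM.Ana

/-!
# Almost all monomials are independent
-/

set_option autoImplicit false

namespace Pool.Agent.Q147.MM

open Module Finset Filter Topology
open Pool.Agent.Y787 (QC mem_QC HypC)
open Pool.Agent.Q95.MM (cnt_le_self one_mem_Sk cnt_Sk_pos upto_mono upto_diff sum_diff cnt_diff)

theorem cnt_le {A B : Set ℕ} (h : A ⊆ B) (N : ℕ) : cnt A N ≤ cnt B N :=
  Finset.card_le_card (upto_mono h N)

theorem Sk_ne {k n : ℕ} (h : n ∈ Sk k) : n ≠ 0 := h.1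

theorem prime_mem_Sk {k : ℕ} (hk : 1 ≤ k) {p : ℕ} (hp : p.Prime) : p ∈ Sk k :=
  ⟨hp.ne_zero, by rw [ArithmeticFunction.cardFactors_eq_one_iff_prime.2 hp]; exact hk⟩

theorem Sk_mul {k a p : ℕ} (ha : a ∈ Sk k) (hp : p.Prime) : a * p ∈ Sk (k + 1) := by
  refine ⟨mul_ne_zero ha.1 hp.ne_zero, ?_⟩
  rw [ArithmeticFunction.cardFactors_mul ha.1 hp.ne_zero,
    ArithmeticFunction.cardFactors_eq_one_iff_prime.2 hp]
  exact Nat.add_le_add_right ha.2 1

theorem mem_Q1_of_Sk {n : ℕ} (h : n ∈ Sk 1) : n ∈ Q1 := by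
  obtain ⟨h1, h2⟩ := h
  rcases Nat.lt_or_ge (ArithmeticFunction.cardFactors n) 1 with h3 | h3
  · left
    have h4 : ArithmeticFunction.cardFactors n = 0 := by omega
    rw [ArithmeticFunction.cardFactors_eq_zero_iff_eq_zero_or_one] at h4
    omega
  · right
    exact ArithmeticFunction.cardFactors_eq_one_iff_prime.1 (by omega)

theorem cnt_Sk_one (N : ℕ) : cnt (Sk 1) N ≤ Nat.primeCounting N + 1 := by
  classical
  have h : upto (Sk 1) N ⊆ insert 1 ((Icc 1 N).filter Nat.Prime) := by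
    intro n hn
    rw [mem_upto] at hn
    rcases mem_Q1_of_Sk hn.2 with h1 | h1
    · rw [h1]; exact Finset.mem_insert_self _ _
    · exact Finset.mem_insert_of_mem (Finset.mem_filter.2 ⟨Finset.mem_Icc.2 hn.1, h1⟩)
  refine (Finset.card_le_card h).trans ((Finset.card_insert_le _ _).trans ?_)
  rw [card_primes]

/-- each of the densities is one -/
theorem each {R : ℕ} (G : ℕ → Set ℕ) (S : Set ℕ) (hG : ∀ i < R, G i ⊆ S)
    (hS : ∀ᶠ N in atTop, 0 < cnt S N) (e : ℕ → ℝ)
    (he : Tendsto (fun N : ℕ => e N / cnt S N) atTop (𝓝 0))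
    (h : ∀ ε : ℝ, 0 < ε → ε < 1 → ∀ᶠ N in atTop,
      (R : ℝ) * ((1 - ε) * cnt S N) ≤ ∑ i ∈ range R, (cnt (G i) N : ℝ) + e N) :
    ∀ i < R, Tendsto (fun N : ℕ => (cnt (G i) N : ℝ) / cnt S N) atTop (𝓝 1) := by
  intro i hi
  have hR : (0 : ℝ) < R := by exact_mod_cast (Nat.zero_le i).trans_lt hi
  rw [tendsto_order]
  constructor
  · intro a ha
    set ε : ℝ := min ((1 - a) / (3 * R)) (1 / 2) with hε
    have hε0 : 0 < ε := lt_min (div_pos (by linarith) (by positivity)) (by norm_num)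
    have hε1 : ε < 1 := lt_of_le_of_lt (min_le_right _ _) (by norm_num)
    have hε2 : R * ε ≤ (1 - a) / 3 := by
      have h1 : ε ≤ (1 - a) / (3 * R) := min_le_left _ _
      calc R * ε ≤ R * ((1 - a) / (3 * R)) := mul_le_mul_of_nonneg_left h1 hR.le
        _ = (1 - a) / 3 := by field_simp
    have h1 := (tendsto_order.1 he).2 ((1 - a) / 3) (by linarith)
    filter_upwards [h1, h ε hε0 hε1, hS] with N h2 h3 h4
    have hpos : (0 : ℝ) < cnt S N := by exact_mod_cast h4
    rw [div_lt_iff₀ hpos] at h2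
    rw [lt_div_iff₀ hpos]
    have h5 : ∑ j ∈ range R, (cnt (G j) N : ℝ) ≤ cnt (G i) N + ((R : ℝ) - 1) * cnt S N := by
      rw [← Finset.add_sum_erase _ _ (Finset.mem_range.2 hi)]
      have h6 : ∑ j ∈ (range R).erase i, (cnt (G j) N : ℝ) ≤
          ((range R).erase i).card • (cnt S N : ℝ) :=
        Finset.sum_le_card_nsmul _ _ _ fun j hj => by
          exact_mod_cast cnt_le (hG j (Finset.mem_range.1 (Finset.mem_of_mem_erase hj))) N
      rw [Finset.card_erase_of_mem (Finset.mem_range.2 hi), Finset.card_range, nsmul_eq_mul,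
        Nat.cast_sub (by omega), Nat.cast_one] at h6
      linarith
    have h7 : R * ε * (cnt S N : ℝ) ≤ (1 - a) / 3 * cnt S N :=
      mul_le_mul_of_nonneg_right hε2 hpos.le
    have h8 : 0 < (1 - a) / 3 * (cnt S N : ℝ) := mul_pos (by linarith) hpos
    nlinarith
  · intro a ha
    refine Eventually.of_forall fun N => lt_of_le_of_lt ?_ ha
    apply div_le_one_of_le₀ _ (Nat.cast_nonneg _)
    exact_mod_cast cnt_le (hG i hi) N

theorem inter (R : ℕ) (G : ℕ → Set ℕ) (S : Set ℕ) (hG : ∀ i < R, G i ⊆ S)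
    (hS : ∀ᶠ N in atTop, 0 < cnt S N)
    (h : ∀ i < R, Tendsto (fun N : ℕ => (cnt (G i) N : ℝ) / cnt S N) atTop (𝓝 1)) :
    Tendsto (fun N : ℕ => (cnt {n | n ∈ S ∧ ∀ i < R, n ∈ G i} N : ℝ) / cnt S N) atTop
      (𝓝 1) := by
  classical
  induction R with
  | zero =>
    refine (tendsto_congr' ?_).2 tendsto_const_nhds
    filter_upwards [hS] with N hN
    have h1 : {n | n ∈ S ∧ ∀ i < 0, n ∈ G i} = S := by ext n; simp
    rw [h1]
    exact div_self (by exact_mod_cast hN.ne')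
  | succ R ih =>
    have ih' := ih (fun i hi => hG i (by omega)) (fun i hi => h i (by omega))
    have h2 := h R (Nat.lt_succ_self R)
    have h3 : Tendsto (fun N : ℕ => (cnt {n | n ∈ S ∧ ∀ i < R, n ∈ G i} N : ℝ) / cnt S N +
        (cnt (G R) N : ℝ) / cnt S N - 1) atTop (𝓝 1) := by
      have := (ih'.add h2).sub_const 1
      norm_num at this
      exact this
    refine tendsto_of_tendsto_of_tendsto_of_le_of_le' h3 tendsto_const_nhds ?_ ?_
    · filter_upwards [hS] with N hN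
      have hpos : (0 : ℝ) < cnt S N := by exact_mod_cast hN
      rw [← add_div, sub_le_iff_le_add, ← div_self hpos.ne', ← add_div]
      refine div_le_div_of_nonneg_right ?_ hpos.le
      have h4 : cnt {n | n ∈ S ∧ ∀ i < R, n ∈ G i} N + cnt (G R) N ≤
          cnt {n | n ∈ S ∧ ∀ i < R + 1, n ∈ G i} N + cnt S N := by
        have h5 := Finset.card_union_add_card_inter (upto {n | n ∈ S ∧ ∀ i < R, n ∈ G i} N)
          (upto (G R) N)
        have h6 : upto {n | n ∈ S ∧ ∀ i < R, n ∈ G i} N ∪ upto (G R) N ⊆ upto S N := by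
          refine Finset.union_subset (upto_mono (fun n hn => hn.1) N)
            (upto_mono (hG R (Nat.lt_succ_self R)) N)
        have h7 : upto {n | n ∈ S ∧ ∀ i < R, n ∈ G i} N ∩ upto (G R) N ⊆
            upto {n | n ∈ S ∧ ∀ i < R + 1, n ∈ G i} N := by
          intro n hn
          rw [Finset.mem_inter, mem_upto, mem_upto] at hn
          rw [mem_upto]
          refine ⟨hn.1.1, hn.1.2.1, fun i hi => ?_⟩
          rcases Nat.lt_succ_iff_lt_or_eq.1 hi with h8 | h8
          · exact hn.1.2.2 i h8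
          · rw [h8]; exact hn.2.2
        have h8 := Finset.card_le_card h6
        have h9 := Finset.card_le_card h7
        unfold cnt
        omega
      exact_mod_cast h4
    · refine Eventually.of_forall fun N => ?_
      apply div_le_one_of_le₀ _ (Nat.cast_nonneg _)
      exact_mod_cast cnt_le (A := {n | n ∈ S ∧ ∀ i < R + 1, n ∈ G i}) (fun n hn => hn.1) N

theorem Sk_pos (k : ℕ) : ∀ᶠ N in atTop, 0 < cnt (Sk k) N := by
  filter_upwards [eventually_ge_atTop 1] with N hN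
  exact cnt_Sk_pos k N hN

variable {Cc : Type} [Field Cc] [CharZero Cc] {Lt : Submodule (QC Cc) Cc} [HypC Lt] {l : ℕ → Cc}

/-- **Densities.** -/
theorem dens (h : Good Lt l) (w : ℕ → Cc) (R : ℕ) (hR : 0 < R)
    (hw : LinearIndepOn (QC Cc) w (range R : Set ℕ)) (k : ℕ) (hk : 1 ≤ k) :
    ∀ i < R, Tendsto (fun N : ℕ =>
      (cnt (Gi (QC Cc) (vv w l R) (Sk k) R i) N : ℝ) / cnt (Sk k) N) atTop (𝓝 1) := by
  induction k, hk using Nat.le_induction with
  | base =>
    refine each _ _ (fun i hi => Gi_subset _ _ hi) (Sk_pos 1) (fun _ => (R : ℝ) ^ 2) ?_ ?_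
    · have h1 : Tendsto (fun N : ℕ => (cnt (Sk 1) N : ℝ)) atTop atTop := by
        refine tendsto_natCast_atTop_atTop.comp ?_
        refine tendsto_atTop_mono (fun N => ?_) Nat.tendsto_primeCounting
        rw [← card_primes]
        refine Finset.card_le_card fun p hp => ?_
        rw [Finset.mem_filter, Finset.mem_Icc] at hp
        rw [mem_upto]
        exact ⟨hp.1, prime_mem_Sk le_rfl hp.2⟩
      exact Tendsto.div_atTop tendsto_const_nhds h1
    · intro ε hε hε1
      refine Eventually.of_forall fun N => ?_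
      have h1 := base h w (S := Sk 1) (fun _ => Sk_ne) (fun p hp => prime_mem_Sk le_rfl hp) R hR hw N
      have h2 := cnt_Sk_one N
      have h3 : R * (cnt (Sk 1) N) ≤
          ∑ i ∈ range R, cnt (Gi (QC Cc) (vv w l R) (Sk 1) R i) N + R ^ 2 := by
        have h4 : R * (R - 1) + R = R ^ 2 := by
          rcases Nat.exists_eq_succ_of_ne_zero hR.ne' with ⟨m, rfl⟩
          simp only [Nat.succ_eq_add_one, Nat.add_sub_cancel]
          ring
        have h5 := Nat.mul_le_mul_left R h2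
        have h6 : R * (Nat.primeCounting N + 1) = R * Nat.primeCounting N + R := by ring
        omega
      have h4 : (R : ℝ) * (cnt (Sk 1) N) ≤
          ∑ i ∈ range R, (cnt (Gi (QC Cc) (vv w l R) (Sk 1) R i) N : ℝ) + (R : ℝ) ^ 2 := by
        exact_mod_cast h3
      refine le_trans ?_ h4
      refine mul_le_mul_of_nonneg_left ?_ (Nat.cast_nonneg _)
      have h5 : (0 : ℝ) ≤ cnt (Sk 1) N := Nat.cast_nonneg _
      nlinarith
  | succ k hk ih =>
    refine each _ _ (fun i hi => Gi_subset _ _ hi) (Sk_pos (k + 1))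
      (fun N => 0 * Nat.primeCounting N + (R : ℝ) ^ 2 * (zz N : ℝ) ^ 2)
      (negl_err k hk 0 ((R : ℝ) ^ 2)) ?_
    intro ε hε hε1
    have h1 : ∀ᶠ N : ℕ in atTop, ∀ i ∈ range R, (1 - ε) * (cnt (Sk (k + 1)) N : ℝ) ≤
        ∑ a ∈ upto (Gi (QC Cc) (vv w l R) (Sk k) R i) (zz N),
          (Nat.primeCounting (N / a) : ℝ) := by
      rw [Filter.eventually_all_finset]
      intro i hi
      exact step k hk _ (Gi_subset _ _ (Finset.mem_range.1 hi)) (ih i (Finset.mem_range.1 hi)) ε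
        hε hε1
    filter_upwards [h1] with N hN
    have h2 := recursion h w (S := Sk k) (S' := Sk (k + 1)) (fun _ => Sk_ne)
      (fun a ha p hp => Sk_mul ha hp) R hR (zz N) N
    have h3 : ∑ i ∈ range R, ∑ a ∈ upto (Gi (QC Cc) (vv w l R) (Sk k) R i) (zz N),
        (Nat.primeCounting (N / a) : ℝ) ≤
        ∑ i ∈ range R, (cnt (Gi (QC Cc) (vv w l R) (Sk (k + 1)) R i) N : ℝ) +
          ((R : ℝ) * (zz N : ℝ)) ^ 2 := by
      exact_mod_cast h2
    have h4 := Finset.sum_le_sum hN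
    rw [Finset.sum_const, Finset.card_range, nsmul_eq_mul] at h4
    rw [mul_pow] at h3
    linarith

/-- **Densities modulo `Lt`.** -/
theorem densM (h : Good Lt l) (w : ℕ → Cc) (hw0 : w 0 = 1) (R : ℕ) (hR : 0 < R)
    (hw : LinearIndepOn (QC Cc) w (range R : Set ℕ)) (k : ℕ) (hk : 1 ≤ k) :
    ∀ i < R, Tendsto (fun N : ℕ =>
      (cnt (Gi (QC Cc) (fun m => Lt.mkQ (vv w l R m)) (Sk (k + 1)) R i) N : ℝ) /
        cnt (Sk (k + 1)) N) atTop (𝓝 1) := by
  have ih := dens h w R hR hw k hk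
  refine each _ _ (fun i hi => Gi_subset _ _ hi) (Sk_pos (k + 1))
    (fun N => 1 * Nat.primeCounting N + (R : ℝ) ^ 2 * (zz N : ℝ) ^ 2)
    (negl_err k hk 1 ((R : ℝ) ^ 2)) ?_
  intro ε hε hε1
  have h1 : ∀ᶠ N : ℕ in atTop, ∀ i ∈ range R, (1 - ε) * (cnt (Sk (k + 1)) N : ℝ) ≤
      ∑ a ∈ upto (Gi (QC Cc) (vv w l R) (Sk k) R i) (zz N),
        (Nat.primeCounting (N / a) : ℝ) := by
    rw [Filter.eventually_all_finset]
    intro i hi
    exact step k hk _ (Gi_subset _ _ (Finset.mem_range.1 hi)) (ih i (Finset.mem_range.1 hi)) ε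
      hε hε1
  filter_upwards [h1] with N hN
  have h2 := recursionM h w hw0 (S := Sk k) (S' := Sk (k + 1)) (fun _ => Sk_ne) (one_mem_Sk k)
    (fun _ => Sk_ne) (fun a ha p hp => Sk_mul ha hp) R hR (zz N) N
  have h3 : ∑ i ∈ range R, ∑ a ∈ upto (Gi (QC Cc) (vv w l R) (Sk k) R i) (zz N),
      (Nat.primeCounting (N / a) : ℝ) ≤
      ∑ i ∈ range R,
        (cnt (Gi (QC Cc) (fun m => Lt.mkQ (vv w l R m)) (Sk (k + 1)) R i) N : ℝ) +
        Nat.primeCounting N + ((R : ℝ) * (zz N : ℝ)) ^ 2 := by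
    exact_mod_cast h2
  have h4 := Finset.sum_le_sum hN
  rw [Finset.sum_const, Finset.card_range, nsmul_eq_mul] at h4
  rw [mul_pow] at h3
  linarith

end Pool.Agent.Q147.MM
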