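import Pool.Agent.Q147.MM.CoreG

/-!
# Greedy bases

`Gr v S` is the set of the `n ∈ S` such that `v n` is not in the span of the `v m`, `m ∈ S`,
`m < n`. It counts dimensions at all scales. The pairs `(i, n)`, `i < R`, are coded as `n * R + i`.
-/

set_option autoImplicit false

namespace Pool.Agent.Q147.MM

open Module Finset
open Pool.Agent.Y787 (QC mem_QC HypC)

section Gen

variable {K V : Type*} [Field K] [AddCommGroup V] [Module K V] (v : ℕ → V) (S : Set ℕ)

variable (K) in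
/-- the greedy basis -/
def Gr : Set ℕ := {n | n ∈ S ∧ v n ∉ Submodule.span K (v '' {m | m ∈ S ∧ m < n})}

theorem Gr_subset : Gr K v S ⊆ S := fun _ h => h.1

theorem Gr_li : LinearIndepOn K v (Gr K v S) := by
  refine linearIndepOn_of_finite _ fun t ht hf => ?_
  obtain ⟨t, rfl⟩ := hf.exists_finset_coe
  induction t using Finset.induction_on_max with
  | empty => simp
  | insert a s has ih =>
    have hs : (s : Set ℕ) ⊆ Gr K v S := fun x hx => ht (by simp [hx])
    have ha : a ∈ Gr K v S := ht (by simp)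
    rw [Finset.coe_insert]
    refine (ih hs s.finite_toSet).insert fun h => ha.2 ?_
    refine Submodule.span_mono (Set.image_mono ?_) h
    exact fun x hx => ⟨(hs hx).1, has x hx⟩

theorem mem_span_Gr (n : ℕ) (hn : n ∈ S) :
    v n ∈ Submodule.span K (v '' {m | m ∈ Gr K v S ∧ m ≤ n}) := by
  induction n using Nat.strong_induction_on with
  | _ n ih =>
    by_cases h : n ∈ Gr K v S
    · exact Submodule.subset_span (Set.mem_image_of_mem v ⟨h, le_rfl⟩)
    · have h1 : v n ∈ Submodule.span K (v '' {m | m ∈ S ∧ m < n}) := by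
        by_contra h2
        exact h ⟨hn, h2⟩
      refine (Submodule.span_le.2 ?_) h1
      rintro _ ⟨m, ⟨hm, hmn⟩, rfl⟩
      refine Submodule.span_mono (Set.image_mono ?_) (ih m hmn hm)
      exact fun x hx => ⟨hx.1, hx.2.trans hmn.le⟩

theorem finrank_le_gr (t : Set ℕ) (ht : t ⊆ S) (u : Finset ℕ)
    (hu : ∀ m ∈ Gr K v S, (∃ n ∈ t, m ≤ n) → m ∈ u) :
    finrank K (Submodule.span K (v '' t)) ≤ u.card := by
  have h1 : Submodule.span K (v '' t) ≤ Submodule.span K (v '' (u : Set ℕ)) := by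
    refine Submodule.span_le.2 ?_
    rintro _ ⟨n, hn, rfl⟩
    refine Submodule.span_mono (Set.image_mono ?_) (mem_span_Gr v S n (ht hn))
    rintro m ⟨hm, hmn⟩
    exact hu m hm ⟨n, hn, hmn⟩
  have : FiniteDimensional K (Submodule.span K (v '' (u : Set ℕ))) :=
    FiniteDimensional.span_of_finite _ (u.finite_toSet.image _)
  refine (Submodule.finrank_mono h1).trans ?_
  classical
  have h2 := finrank_span_finset_le_card (R := K) (u.image v)
  rw [Finset.coe_image] at h2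
  exact h2.trans Finset.card_image_le

variable (K) in
/-- the greedy basis of the pairs `(i, n)`, `n ∈ S`, `i < R`: the part with first coordinate `i` -/
def Gi (R : ℕ) (i : ℕ) : Set ℕ := {n | n * R + i ∈ Gr K v {m | m / R ∈ S}}

theorem div_code {R i n : ℕ} (hi : i < R) : (n * R + i) / R = n := by
  rw [Nat.mul_comm, Nat.mul_add_div (by omega), Nat.div_eq_of_lt hi, Nat.add_zero]

theorem mod_code {R i n : ℕ} (hi : i < R) : (n * R + i) % R = i := by
  rw [Nat.mul_comm, Nat.mul_add_mod, Nat.mod_eq_of_lt hi]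

theorem Gi_subset {R i : ℕ} (hi : i < R) : Gi K v S R i ⊆ S := fun n h => by
  have h1 := h.1
  rwa [Set.mem_ofPred_eq, div_code hi] at h1

/-- the finite set of the pairs up to `N` -/
noncomputable def PP (G : ℕ → Set ℕ) (R N : ℕ) : Finset (Σ _ : ℕ, ℕ) :=
  (range R).sigma fun i => upto (G i) N

theorem mem_PP {G : ℕ → Set ℕ} {R N : ℕ} {p : Σ _ : ℕ, ℕ} :
    p ∈ PP G R N ↔ p.1 < R ∧ (1 ≤ p.2 ∧ p.2 ≤ N) ∧ p.2 ∈ G p.1 := by
  rw [PP, Finset.mem_sigma, Finset.mem_range, mem_upto]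

theorem card_PP (G : ℕ → Set ℕ) (R N : ℕ) : (PP G R N).card = ∑ i ∈ range R, cnt (G i) N := by
  rw [PP, Finset.card_sigma]
  rfl

theorem card_PP_le (G : ℕ → Set ℕ) (R N : ℕ) : (PP G R N).card ≤ R * N := by
  have h : PP G R N ⊆ (range R).sigma fun _ => Icc 1 N := by
    intro p hp
    rw [mem_PP] at hp
    rw [Finset.mem_sigma, Finset.mem_range, Finset.mem_Icc]
    exact ⟨hp.1, hp.2.1⟩
  have h2 := Finset.card_le_card h
  rw [Finset.card_sigma] at h2
  simpa using h2

/-- the code of a pair -/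
def code (R : ℕ) (p : Σ _ : ℕ, ℕ) : ℕ := p.2 * R + p.1

theorem code_injOn (R : ℕ) : Set.InjOn (code R) {p | p.1 < R} := by
  rintro ⟨i, n⟩ hi ⟨j, m⟩ hj h
  simp only [Set.mem_ofPred_eq] at hi hj
  have h1 := congrArg (· / R) h
  have h2 := congrArg (· % R) h
  simp only [code, div_code hi, div_code hj, mod_code hi, mod_code hj] at h1 h2
  subst h1 h2
  rfl

theorem finrank_pairs (hS : ∀ n ∈ S, n ≠ 0) (R : ℕ) (hR : 0 < R) (N : ℕ) :
    finrank K (Submodule.span K (v '' {m | m / R ∈ S ∧ m / R ≤ N})) ≤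
      ∑ i ∈ range R, cnt (Gi K v S R i) N := by
  classical
  rw [← card_PP (Gi K v S R) R N]
  refine (finrank_le_gr v {m | m / R ∈ S} _ (fun m hm => hm.1)
    ((PP (Gi K v S R) R N).image (code R)) ?_).trans Finset.card_image_le
  rintro m hm ⟨n, ⟨_, hn⟩, hmn⟩
  rw [Finset.mem_image]
  have hc : m / R * R + m % R = m := Nat.div_add_mod' m R
  refine ⟨⟨m % R, m / R⟩, ?_, hc⟩
  rw [mem_PP]
  refine ⟨Nat.mod_lt _ hR, ⟨Nat.one_le_iff_ne_zero.2 (hS _ hm.1),
    (Nat.div_le_div_right hmn).trans hn⟩, ?_⟩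
  show m / R * R + m % R ∈ Gr K v {m | m / R ∈ S}
  rw [hc]
  exact hm

theorem fin_pairs (S : Set ℕ) (R : ℕ) (hR : 0 < R) (N : ℕ) :
    ({m : ℕ | m / R ∈ S ∧ m / R ≤ N} : Set ℕ).Finite := by
  refine (Set.finite_Iio ((N + 1) * R)).subset ?_
  rintro m ⟨_, hm⟩
  rw [Set.mem_Iio]
  exact (Nat.div_lt_iff_lt_mul hR).1 (by omega)

theorem PP_li (R z : ℕ) :
    LinearIndepOn K (v ∘ code R) (PP (Gi K v S R) R z : Set (Σ _ : ℕ, ℕ)) := by
  refine LinearIndepOn.comp_of_image ((Gr_li v {m | m / R ∈ S}).mono ?_) ?_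
  · rintro _ ⟨p, hp, rfl⟩
    rw [Finset.mem_coe, mem_PP] at hp
    exact hp.2.2
  · refine (code_injOn R).mono fun p hp => ?_
    rw [Finset.mem_coe, mem_PP] at hp
    exact hp.1

end Gen

/-- the primes `≤ x` -/
theorem card_primes (x : ℕ) : ((Icc 1 x).filter Nat.Prime).card = Nat.primeCounting x := by
  rw [Nat.primeCounting, Nat.primeCounting', Nat.count_eq_card_filter_range]
  congr 1
  ext p
  simp only [Finset.mem_filter, Finset.mem_Icc, Finset.mem_range]
  constructor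
  · rintro ⟨⟨h1, h2⟩, h3⟩; exact ⟨by omega, h3⟩
  · rintro ⟨h1, h3⟩; exact ⟨⟨h3.one_lt.le, by omega⟩, h3⟩

variable {Cc : Type} [Field Cc] [CharZero Cc] {Lt : Submodule (QC Cc) Cc} {l : ℕ → Cc}

/-- the family of the products `w i * lam l n` -/
noncomputable def vv (w l : ℕ → Cc) (R : ℕ) (m : ℕ) : Cc := w (m % R) * lam l (m / R)

omit [CharZero Cc] in
theorem vv_code (w l : ℕ → Cc) {R : ℕ} {p : Σ _ : ℕ, ℕ} (hp : p.1 < R) :
    vv w l R (code R p) = w p.1 * lam l p.2 := by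
  rw [vv, code, div_code hp, mod_code hp]

variable [HypC Lt]

/-- **Recursion.** -/
theorem recursion (h : Good Lt l) (w : ℕ → Cc) {S S' : Set ℕ} (hS' : ∀ n ∈ S', n ≠ 0)
    (hSS : ∀ a ∈ S, ∀ p : ℕ, p.Prime → a * p ∈ S') (R : ℕ) (hR : 0 < R) (z N : ℕ) :
    ∑ i ∈ range R, ∑ a ∈ upto (Gi (QC Cc) (vv w l R) S R i) z, Nat.primeCounting (N / a) ≤
      ∑ i ∈ range R, cnt (Gi (QC Cc) (vv w l R) S' R i) N + (R * z) ^ 2 := by
  set A := PP (Gi (QC Cc) (vv w l R) S R) R z with hAdef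
  have : FiniteDimensional (QC Cc)
      (Submodule.span (QC Cc) (vv w l R '' {m | m / R ∈ S' ∧ m / R ≤ N})) :=
    FiniteDimensional.span_of_finite _ ((fin_pairs S' R hR N).image _)
  have h1 := core h A (fun p => w p.1 * lam l p.2) ?_
    (fun p => (Icc 1 (N / p.2)).filter Nat.Prime) ?_
    (Submodule.span (QC Cc) (vv w l R '' {m | m / R ∈ S' ∧ m / R ≤ N})) ?_
  · have h2 : A.card ≤ R * z := card_PP_le _ _ _
    have h3 : A.card * (A.card - 1) ≤ (R * z) ^ 2 := by
      rw [sq]; exact Nat.mul_le_mul h2 (by omega)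
    simp only [card_primes] at h1
    rw [hAdef, PP, Finset.sum_sigma] at h1
    exact h1.trans (Nat.add_le_add (finrank_pairs (vv w l R) S' hS' R hR N) h3)
  · refine (PP_li (vv w l R) S R z).congr fun p hp => ?_
    rw [Finset.mem_coe, mem_PP] at hp
    exact vv_code w l hp.1
  · intro a _ q hq
    exact Or.inr (Finset.mem_filter.1 hq).2
  · rintro ⟨i, a⟩ ha q hq
    rw [Finset.mem_filter, Finset.mem_Icc] at hq
    rw [hAdef, mem_PP] at ha
    simp only at ha hq ⊢
    refine Submodule.subset_span ⟨(a * q) * R + i, ⟨?_, ?_⟩, ?_⟩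
    · rw [div_code ha.1]
      exact hSS a (Gi_subset _ _ ha.1 ha.2.2) q hq.2
    · rw [div_code ha.1]
      calc a * q ≤ a * (N / a) := Nat.mul_le_mul_left _ hq.1.2
        _ ≤ N := Nat.mul_div_le N a
    · rw [vv, div_code ha.1, mod_code ha.1, lam_mul l (by omega) hq.2.ne_zero, mul_assoc]

/-- the number of primes is a lower bound -/
theorem base (h : Good Lt l) (w : ℕ → Cc) {S : Set ℕ} (hS : ∀ n ∈ S, n ≠ 0)
    (hSS : ∀ p : ℕ, p.Prime → p ∈ S) (R : ℕ) (hR : 0 < R)
    (hw : LinearIndepOn (QC Cc) w (range R : Set ℕ)) (N : ℕ) :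
    R * Nat.primeCounting N ≤
      ∑ i ∈ range R, cnt (Gi (QC Cc) (vv w l R) S R i) N + R * (R - 1) := by
  have : FiniteDimensional (QC Cc)
      (Submodule.span (QC Cc) (vv w l R '' {m | m / R ∈ S ∧ m / R ≤ N})) :=
    FiniteDimensional.span_of_finite _ ((fin_pairs S R hR N).image _)
  have h1 := core h (range R) w hw (fun _ => (Icc 1 N).filter Nat.Prime) ?_
    (Submodule.span (QC Cc) (vv w l R '' {m | m / R ∈ S ∧ m / R ≤ N})) ?_
  · simp only [card_primes, Finset.sum_const, Finset.card_range, smul_eq_mul] at h1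
    exact h1.trans (Nat.add_le_add_right (finrank_pairs (vv w l R) S hS R hR N) _)
  · intro a _ q hq
    exact Or.inr (Finset.mem_filter.1 hq).2
  · intro i hi q hq
    rw [Finset.mem_filter, Finset.mem_Icc] at hq
    rw [Finset.mem_range] at hi
    refine Submodule.subset_span ⟨q * R + i, ⟨?_, ?_⟩, ?_⟩
    · rw [div_code hi]
      exact hSS q hq.2
    · rw [div_code hi]
      exact hq.1.2
    · rw [vv, div_code hi, mod_code hi]

/-- **Recursion modulo `Lt`.** -/
theorem recursionM (h : Good Lt l) (w : ℕ → Cc) (hw0 : w 0 = 1) {S S' : Set ℕ}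
    (hS : ∀ n ∈ S, n ≠ 0) (hS1 : 1 ∈ S) (hS' : ∀ n ∈ S', n ≠ 0)
    (hSS : ∀ a ∈ S, ∀ p : ℕ, p.Prime → a * p ∈ S') (R : ℕ) (hR : 0 < R) (z N : ℕ) :
    ∑ i ∈ range R, ∑ a ∈ upto (Gi (QC Cc) (vv w l R) S R i) z, Nat.primeCounting (N / a) ≤
      ∑ i ∈ range R, cnt (Gi (QC Cc) (fun m => Lt.mkQ (vv w l R m)) S' R i) N +
        Nat.primeCounting N + (R * z) ^ 2 := by
  classical
  set A := (PP (Gi (QC Cc) (vv w l R) S R) R z).erase ⟨0, 1⟩ with hAdef
  have hmem : ∀ p ∈ A, p ≠ ⟨0, 1⟩ ∧ p.1 < R ∧ (1 ≤ p.2 ∧ p.2 ≤ z) ∧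
      p.2 ∈ Gi (QC Cc) (vv w l R) S R p.1 := fun p hp => by
    rw [hAdef, Finset.mem_erase, mem_PP] at hp
    exact hp
  have : FiniteDimensional (QC Cc) (Submodule.span (QC Cc)
      ((fun m => Lt.mkQ (vv w l R m)) '' {m | m / R ∈ S' ∧ m / R ≤ N})) :=
    FiniteDimensional.span_of_finite _ ((fin_pairs S' R hR N).image _)
  have hRG : R ∈ Gr (QC Cc) (vv w l R) {m | m / R ∈ S} := by
    refine ⟨?_, ?_⟩
    · show R / R ∈ S
      rwa [Nat.div_self hR]
    · have h2 : {m | m ∈ {m | m / R ∈ S} ∧ m < R} = (∅ : Set ℕ) := by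
        ext m
        simp only [Set.mem_ofPred_eq, Set.mem_empty_iff_false, iff_false, not_and]
        intro hm hmR
        exact hS _ hm (Nat.div_eq_of_lt hmR)
      rw [h2, vv, Nat.mod_self, Nat.div_self hR, hw0, lam_one]
      simp
  have hins : LinearIndepOn (QC Cc) (vv w l R)
      (insert R (code R '' (A : Set (Σ _ : ℕ, ℕ)))) := by
    refine (Gr_li (vv w l R) {m | m / R ∈ S}).mono ?_
    rintro _ (rfl | ⟨p, hp, rfl⟩)
    · exact hRG
    · exact (hmem p (by exact_mod_cast hp)).2.2.2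
  have hinj : Set.InjOn (code R) (A : Set (Σ _ : ℕ, ℕ)) :=
    (code_injOn R).mono fun p hp => (hmem p (by exact_mod_cast hp)).2.1
  have hRn : R ∉ code R '' (A : Set (Σ _ : ℕ, ℕ)) := by
    rintro ⟨p, hp, hpR⟩
    have h2 := hmem p (by exact_mod_cast hp)
    refine h2.1 (code_injOn R h2.2.1 (show (0 : ℕ) < R from hR) ?_)
    rw [hpR]
    simp [code]
  rw [linearIndepOn_insert hRn] at hins
  have hvR : vv w l R R = 1 := by rw [vv, Nat.mod_self, Nat.div_self hR, hw0, lam_one, one_mul]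
  have hxe : ∀ p ∈ (A : Set (Σ _ : ℕ, ℕ)), (vv w l R ∘ code R) p = w p.1 * lam l p.2 :=
    fun p hp => vv_code w l (hmem p (by exact_mod_cast hp)).2.1
  have h1 := coreM h A (fun p => w p.1 * lam l p.2) ?_ ?_
    (fun p => (Icc 1 (N / p.2)).filter Nat.Prime) ?_
    (Submodule.span (QC Cc) ((fun m => Lt.mkQ (vv w l R m)) '' {m | m / R ∈ S' ∧ m / R ≤ N})) ?_
  · have h4 : (A.card + 1) * A.card ≤ (R * z) ^ 2 := by
      rcases Nat.eq_zero_or_pos z with rfl | hz
      · have h5 : A = ∅ := by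
          rw [Finset.eq_empty_iff_forall_notMem]
          intro p hp
          have := (hmem p hp).2.2.1
          omega
        rw [h5]; simp
      · have h5 : A ⊆ ((range R).sigma fun _ => Icc 1 z).erase ⟨0, 1⟩ := by
          intro p hp
          have h6 := hmem p hp
          rw [Finset.mem_erase, Finset.mem_sigma, Finset.mem_range, Finset.mem_Icc]
          exact ⟨h6.1, h6.2.1, h6.2.2.1⟩
        have h9 : (⟨0, 1⟩ : Σ _ : ℕ, ℕ) ∈ (range R).sigma fun _ => Icc 1 z := by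
          rw [Finset.mem_sigma, Finset.mem_range, Finset.mem_Icc]
          exact ⟨hR, le_rfl, hz⟩
        have h10 : ((range R).sigma fun _ => Icc 1 z).card = R * z := by
          rw [Finset.card_sigma]
          simp
        have h7 := Finset.card_le_card h5
        rw [Finset.card_erase_of_mem h9, h10] at h7
        have h8 : 0 < R * z := Nat.mul_pos hR hz
        rw [sq]
        exact Nat.mul_le_mul (by omega) (by omega)
    simp only [card_primes] at h1
    have h5 := h1.trans (Nat.add_le_add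
      (finrank_pairs (fun m => Lt.mkQ (vv w l R m)) S' hS' R hR N) h4)
    have h6 : ∑ i ∈ range R, ∑ a ∈ upto (Gi (QC Cc) (vv w l R) S R i) z,
        Nat.primeCounting (N / a) ≤
        Nat.primeCounting N + ∑ p ∈ A, Nat.primeCounting (N / p.2) := by
      rw [← Finset.sum_sigma (range R) (fun i => upto (Gi (QC Cc) (vv w l R) S R i) z)
        (fun p => Nat.primeCounting (N / p.2))]
      show ∑ p ∈ PP (Gi (QC Cc) (vv w l R) S R) R z, _ ≤ _
      by_cases h7 : (⟨0, 1⟩ : Σ _ : ℕ, ℕ) ∈ PP (Gi (QC Cc) (vv w l R) S R) R z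
      · rw [hAdef, ← Finset.add_sum_erase _ _ h7]
        simp only [Nat.div_one]
        exact le_rfl
      · rw [hAdef, Finset.erase_eq_of_notMem h7]
        exact Nat.le_add_left _ _
    omega
  · exact (hins.1.comp_of_image hinj).congr hxe
  · have h2 := hins.2
    rw [hvR] at h2
    have h3 : (fun p : Σ _ : ℕ, ℕ => w p.1 * lam l p.2) '' (A : Set (Σ _ : ℕ, ℕ)) =
        vv w l R '' (code R '' (A : Set (Σ _ : ℕ, ℕ))) := by
      rw [← Set.image_comp]
      exact (Set.image_congr hxe).symm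
    rw [h3]
    exact h2
  · intro a _ q hq
    exact Or.inr (Finset.mem_filter.1 hq).2
  · rintro ⟨i, a⟩ ha q hq
    rw [Finset.mem_filter, Finset.mem_Icc] at hq
    have ha' := hmem _ ha
    simp only at ha' hq ⊢
    refine Submodule.subset_span ⟨(a * q) * R + i, ⟨?_, ?_⟩, ?_⟩
    · rw [div_code ha'.2.1]
      exact hSS a (Gi_subset _ _ ha'.2.1 ha'.2.2.2) q hq.2
    · rw [div_code ha'.2.1]
      calc a * q ≤ a * (N / a) := Nat.mul_le_mul_left _ hq.1.2
        _ ≤ N := Nat.mul_div_le N a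
    · simp only [vv]
      rw [div_code ha'.2.1, mod_code ha'.2.1, lam_mul l (by omega) hq.2.ne_zero, mul_assoc]

end Pool.Agent.Q147.MM
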