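import Pool.Agent.Q147.MM.Main
import Pool.Agent.Y787.CStrat

/-!
# Complex logarithms
-/

set_option autoImplicit false

namespace Pool.Agent.Q147.MM

open Module Finset Filter Topology
open Pool.Agent.Y787 (QC mem_QC HypC)

/-- from finite families -/
theorem li_of_fin {Cc : Type} [Field Cc] [CharZero Cc] (l : ℕ → Cc)
    (h : ∀ (n : ℕ) (p : Fin n → ℕ), Function.Injective p → (∀ i, (p i).Prime) →
      LinearIndependent (QC Cc) (Fin.cons 1 (fun i => l (p i)) : Fin (n + 1) → Cc)) :
    LinearIndepOn (QC Cc) (lam l) Q1 := by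
  classical
  refine linearIndepOn_of_finite _ fun t ht hf => ?_
  obtain ⟨t, rfl⟩ := hf.exists_finset_coe
  let s := t.erase 1
  have hs : ∀ q ∈ s, q.Prime := fun q hq => by
    rw [Finset.mem_erase] at hq
    rcases ht (by exact_mod_cast hq.2) with h1 | h1
    · exact absurd h1 hq.1
    · exact h1
  let e := s.equivFin
  have h1 := h s.card (fun i => (e.symm i).1)
    (Subtype.val_injective.comp e.symm.injective) (fun i => hs _ (e.symm i).2)
  have h2 : LinearIndepOn (QC Cc) (lam l) ((insert 1 s : Finset ℕ) : Set ℕ) := by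
    rw [Finset.coe_insert, linearIndepOn_insert (by exact_mod_cast Finset.notMem_erase 1 t)]
    rw [linearIndependent_finCons] at h1
    refine ⟨?_, ?_⟩
    · have h3 := h1.1.comp e e.injective
      have h4 : ((fun i => l (e.symm i).1) ∘ e) = fun q : s => lam l q.1 := by
        funext q
        rw [Function.comp_apply, Equiv.symm_apply_apply, lam_prime l (hs _ q.2)]
      rw [h4] at h3
      exact h3
    · have h3 := h1.2
      rw [lam_one]
      have h4 : Set.range (fun i => l (e.symm i).1) = lam l '' (s : Set ℕ) := by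
        ext z
        constructor
        · rintro ⟨i, rfl⟩
          exact ⟨(e.symm i).1, by exact_mod_cast (e.symm i).2, lam_prime l (hs _ (e.symm i).2)⟩
        · rintro ⟨q, hq, rfl⟩
          refine ⟨e ⟨q, by exact_mod_cast hq⟩, ?_⟩
          show l (e.symm (e ⟨q, _⟩)).1 = _
          rw [Equiv.symm_apply_apply, lam_prime l (hs _ (by exact_mod_cast hq))]
      rwa [h4] at h3
  refine h2.mono fun q hq => ?_
  by_cases h3 : q = 1
  · rw [h3]; simp
  · rw [Finset.mem_coe] at hq ⊢
    exact Finset.mem_insert_of_mem (Finset.mem_erase.2 ⟨h3, hq⟩)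

theorem goodC (l : ℕ → ℂ) (hl : ∀ p : ℕ, p.Prime → IsAlgebraic ℚ (Complex.exp (l p)))
    (hli : LinearIndependent ℚ (fun p : Nat.Primes => l p)) :
    Good Pool.Agent.H301R2.SSE.Lt l where
  mem p hp := Pool.Agent.H301R2.SSE.Lt_log (hl p hp)
  li := by
    refine li_of_fin l fun n p hinj hp => ?_
    refine Pool.Agent.Y787.li_consC (fun i => l (p i)) (fun i => hl _ (hp i)) ?_
    exact hli.comp (fun i => (⟨p i, hp i⟩ : Nat.Primes)) fun i j hij =>
      hinj (congrArg Subtype.val hij)

end Pool.Agent.Q147.MM
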