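import Pool.Agent.Q147.MM.Dens

/-!
# Main theorems
-/

set_option autoImplicit false

namespace Pool.Agent.Q147.MM

open Module Finset Filter Topology
open Pool.Agent.Y787 (QC mem_QC HypC)

variable {Cc : Type} [Field Cc] [CharZero Cc] {Lt : Submodule (QC Cc) Cc} [HypC Lt] {l : ℕ → Cc}

/-- the elements `lam l n * w i` with `n` in the intersection of the `Gi` are independent -/
theorem indepM (w : ℕ → Cc) (R : ℕ) (S : Set ℕ) (F : Finset ℕ)
    (hF : ∀ n ∈ F, ∀ i < R, n ∈ Gi (QC Cc) (fun m => Lt.mkQ (vv w l R m)) S R i)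
    (c : ℕ → ℕ → QC Cc)
    (hc : ∑ n ∈ F, (∑ i ∈ range R, c i n • w i) * lam l n ∈ Lt) :
    ∀ n ∈ F, ∀ i < R, c i n = 0 := by
  classical
  have h1 := Gr_li (K := QC Cc) (fun m => Lt.mkQ (vv w l R m)) {m | m / R ∈ S}
  let A : Finset (Σ _ : ℕ, ℕ) := (range R).sigma fun _ => F
  have hA : ∀ p ∈ A, p.1 < R ∧ p.2 ∈ F := fun p hp => by
    rw [Finset.mem_sigma, Finset.mem_range] at hp
    exact hp
  have h2 : LinearIndepOn (QC Cc) ((fun m => Lt.mkQ (vv w l R m)) ∘ code R)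
      (A : Set (Σ _ : ℕ, ℕ)) := by
    refine LinearIndepOn.comp_of_image (h1.mono ?_) ?_
    · rintro _ ⟨p, hp, rfl⟩
      have h3 := hA p (by exact_mod_cast hp)
      exact hF p.2 h3.2 p.1 h3.1
    · exact (code_injOn R).mono fun p hp => (hA p (by exact_mod_cast hp)).1
  have h3 : ∑ p ∈ A, c p.1 p.2 • ((fun m => Lt.mkQ (vv w l R m)) ∘ code R) p = 0 := by
    have h4 : Lt.mkQ (∑ n ∈ F, (∑ i ∈ range R, c i n • w i) * lam l n) = 0 :=
      (Submodule.Quotient.mk_eq_zero Lt).2 hc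
    rw [map_sum] at h4
    rw [Finset.sum_sigma, Finset.sum_comm, ← h4]
    refine Finset.sum_congr rfl fun n _ => ?_
    rw [Finset.sum_mul, map_sum]
    refine Finset.sum_congr rfl fun i hi => ?_
    rw [smul_mul_assoc, map_smul, Function.comp_apply, vv_code w l (Finset.mem_range.1 hi)]
  intro n hn i hi
  exact linearIndepOn_finset_iff.1 h2 (fun p => c p.1 p.2) h3 ⟨i, n⟩
    (Finset.mem_sigma.2 ⟨Finset.mem_range.2 hi, hn⟩)

/-- **Degree at most `k + 1`, coefficients in a space of finite dimension.** -/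
theorem mainW (h : Good Lt l) (W : Submodule (QC Cc) Cc) [FiniteDimensional (QC Cc) W] (k : ℕ)
    (hk : 1 ≤ k) :
    ∃ B : Set ℕ, (∀ n ∈ B, 2 ≤ ArithmeticFunction.cardFactors n ∧
        ArithmeticFunction.cardFactors n ≤ k + 1) ∧
      Tendsto (fun N : ℕ => (cnt B N : ℝ) / cnt (Sk (k + 1)) N) atTop (𝓝 1) ∧
      ∀ F : Finset ℕ, (∀ n ∈ F, n ∈ B) → ∀ u : ℕ → Cc, (∀ n ∈ F, u n ∈ W) →
        ∑ n ∈ F, u n * lam l n ∈ Lt → ∀ n ∈ F, u n = 0 := by
  classical
  -- a complement of the line of `1`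
  obtain ⟨P, hP⟩ := Submodule.exists_isCompl (Submodule.span (QC Cc) ({1} : Set Cc))
  let π : Cc →ₗ[QC Cc] Cc := P.subtype ∘ₗ P.projectionOnto _ hP.symm
  let C : Submodule (QC Cc) Cc := W.map π
  have hCP : C ≤ P := by
    rintro _ ⟨x, _, rfl⟩
    exact (P.projectionOnto _ hP.symm x).2
  have hπ : ∀ x, x - π x ∈ Submodule.span (QC Cc) ({1} : Set Cc) := by
    intro x
    have h1 : P.projectionOnto _ hP.symm (x - π x) = 0 := by
      rw [map_sub]
      have h2 : P.projectionOnto _ hP.symm (π x) = P.projectionOnto _ hP.symm x :=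
        Submodule.projectionOnto_apply_left hP.symm _
      rw [h2, sub_self]
    exact (Submodule.projectionOnto_apply_eq_zero_iff hP.symm).1 h1
  let r := finrank (QC Cc) C
  let b := Module.finBasis (QC Cc) C
  let w : ℕ → Cc := fun i => if hi : i - 1 < r ∧ i ≠ 0 then (b ⟨i - 1, hi.1⟩ : Cc) else 1
  have hw0 : w 0 = 1 := by simp [w]
  have hws : ∀ j : Fin r, w (j.1 + 1) = (b j : Cc) := by
    intro j
    simp [w]
  have hwl : LinearIndepOn (QC Cc) w (range (r + 1) : Set ℕ) := by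
    have h1 : LinearIndependent (QC Cc) (Fin.cons 1 (fun j => (b j : Cc)) : Fin (r + 1) → Cc) := by
      rw [linearIndependent_finCons]
      refine ⟨b.linearIndependent.map' C.subtype (Submodule.ker_subtype _), fun h2 => ?_⟩
      have h3 : (1 : Cc) ∈ C := by
        refine (Submodule.span_le.2 ?_) h2
        rintro _ ⟨j, rfl⟩
        exact (b j).2
      have h4 : (1 : Cc) ∈ Submodule.span (QC Cc) ({1} : Set Cc) ⊓ P :=
        ⟨Submodule.mem_span_singleton_self 1, hCP h3⟩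
      rw [hP.inf_eq_bot, Submodule.mem_bot] at h4
      exact one_ne_zero h4
    have h5 : ∀ i : Fin (r + 1), w i.1 = (Fin.cons 1 (fun j => (b j : Cc)) : Fin (r + 1) → Cc) i := by
      intro i
      refine Fin.cases ?_ (fun j => ?_) i
      · rw [Fin.cons_zero]; exact hw0
      · rw [Fin.cons_succ, Fin.val_succ]; exact hws j
    let e : (range (r + 1) : Set ℕ) → Fin (r + 1) := fun x =>
      ⟨x.1, Finset.mem_range.1 (by exact_mod_cast x.2)⟩
    have h6 := h1.comp e (fun x y hxy => Subtype.ext (by simpa [e] using hxy))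
    have h7 : ((Fin.cons 1 (fun j => (b j : Cc)) : Fin (r + 1) → Cc) ∘ e) =
        fun x : (range (r + 1) : Set ℕ) => w x.1 := by
      funext x
      exact (h5 (e x)).symm
    rw [h7] at h6
    exact h6
  let G : ℕ → Set ℕ := Gi (QC Cc) (fun m => Lt.mkQ (vv w l (r + 1) m)) (Sk (k + 1)) (r + 1)
  have hdens := densM h w hw0 (r + 1) (Nat.succ_pos r) hwl k hk
  have hGs : ∀ i < r + 1, G i ⊆ Sk (k + 1) := fun i hi => Gi_subset _ _ hi
  refine ⟨{n | n ∈ Sk (k + 1) ∧ ∀ i < r + 1, n ∈ G i}, ?_,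
    inter (r + 1) G (Sk (k + 1)) hGs (Sk_pos (k + 1)) hdens, ?_⟩
  · rintro n ⟨hn1, hn2⟩
    refine ⟨?_, hn1.2⟩
    by_contra hlt
    have h1 : n ∈ Sk 1 := ⟨hn1.1, by omega⟩
    have h2 := (hn2 0 (Nat.succ_pos r)).2
    refine h2 ?_
    have h3 : (fun m => Lt.mkQ (vv w l (r + 1) m)) (n * (r + 1) + 0) = 0 := by
      show Lt.mkQ (vv w l (r + 1) (n * (r + 1) + 0)) = 0
      rw [vv, mod_code (Nat.succ_pos r), div_code (Nat.succ_pos r), hw0, one_mul]
      exact (Submodule.Quotient.mk_eq_zero Lt).2 (h.mem' (mem_Q1_of_Sk h1))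
    rw [h3]
    exact Submodule.zero_mem _
  · intro F hF u hu hsum
    -- coordinates
    have hcoord : ∀ x ∈ W, ∃ c : ℕ → QC Cc, x = ∑ i ∈ range (r + 1), c i • w i := by
      intro x hx
      obtain ⟨a, ha⟩ := Submodule.mem_span_singleton.1 (hπ x)
      have h1 : π x ∈ C := ⟨x, hx, rfl⟩
      refine ⟨fun i => if hi : i - 1 < r ∧ i ≠ 0 then b.repr ⟨π x, h1⟩ ⟨i - 1, hi.1⟩ else a, ?_⟩
      rw [Finset.sum_range_succ']
      have h2 : ∑ i ∈ range r, (if hi : i + 1 - 1 < r ∧ i + 1 ≠ 0 then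
          b.repr ⟨π x, h1⟩ ⟨i + 1 - 1, hi.1⟩ else a) • w (i + 1) = π x := by
        rw [← Fin.sum_univ_eq_sum_range (fun i => (if hi : i + 1 - 1 < r ∧ i + 1 ≠ 0 then
          b.repr ⟨π x, h1⟩ ⟨i + 1 - 1, hi.1⟩ else a) • w (i + 1)) r]
        have h3 := congrArg (C.subtype) (b.sum_repr ⟨π x, h1⟩)
        rw [map_sum] at h3
        simp only [map_smul, Submodule.subtype_apply] at h3
        refine Eq.trans (Finset.sum_congr rfl fun j _ => ?_) h3
        rw [hws j]
        simp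
      rw [h2]
      simp only [ne_eq, not_true_eq_false, and_false, ↓reduceDIte, hw0]
      rw [ha]
      ring
    choose! c hc using hcoord
    have h1 : ∑ n ∈ F, (∑ i ∈ range (r + 1), c (u n) i • w i) * lam l n ∈ Lt := by
      refine (congrArg (· ∈ Lt) ?_).mpr hsum
      refine Finset.sum_congr rfl fun n hn => ?_
      rw [← hc (u n) (hu n hn)]
    have h2 := indepM w (r + 1) (Sk (k + 1)) F (fun n hn i hi => (hF n hn).2 i hi)
      (fun i n => c (u n) i) h1
    intro n hn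
    rw [hc (u n) (hu n hn)]
    refine Finset.sum_eq_zero fun i hi => ?_
    rw [h2 n hn i (Finset.mem_range.1 hi), zero_smul]

/-- **All degrees.** -/
theorem mainAll (h : Good Lt l) :
    ∃ B : Set ℕ, (∀ n ∈ B, 2 ≤ ArithmeticFunction.cardFactors n) ∧
      (∃ c : ℝ, 0 < c ∧ ∃ N0 : ℕ, ∀ N : ℕ, N0 ≤ N →
        c * (N / (Real.log N) ^ (9 / 40 : ℝ)) ≤ (cnt B N : ℝ)) ∧
      ∀ F : Finset ℕ, (∀ n ∈ F, n ∈ B) → ∀ u : ℕ → QC Cc,
        ∑ n ∈ F, (u n : Cc) * lam l n ∈ Lt → ∀ n ∈ F, u n = 0 := by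
  classical
  let S : Set ℕ := {n | n ≠ 0}
  let w : ℕ → Cc := fun _ => 1
  have hw : LinearIndepOn (QC Cc) w (range 1 : Set ℕ) := by
    rw [Finset.range_one, Finset.coe_singleton]
    exact LinearIndepOn.singleton (R := QC Cc) (v := w) (i := 0) one_ne_zero
  have hSS : ∀ a ∈ S, ∀ p : ℕ, p.Prime → a * p ∈ S := fun a ha p hp =>
    mul_ne_zero ha hp.ne_zero
  have h1 := partA (Gi (QC Cc) (vv w l 1) S 1 0) (fun N => by
      have := base h w (S := S) (fun _ h => h) (fun p hp => hp.ne_zero) 1 Nat.one_pos hw N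
      simpa using this) (fun z N => by
      have := recursion h w (S := S) (S' := S) (fun _ h => h) hSS 1 Nat.one_pos z N
      simpa using this)
  have h2 := partA' _ (Gi (QC Cc) (fun m => Lt.mkQ (vv w l 1 m)) S 1 0) h1 (fun z N => by
      have := recursionM h w rfl (S := S) (S' := S) (fun _ h => h) one_ne_zero (fun _ h => h) hSS 1
        Nat.one_pos z N
      simpa using this)
  refine ⟨Gi (QC Cc) (fun m => Lt.mkQ (vv w l 1 m)) S 1 0, ?_, h2, ?_⟩
  · intro n hn
    by_contra hlt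
    have hn0 : n ≠ 0 := Gi_subset _ _ Nat.one_pos hn
    have h3 : n ∈ Sk 1 := ⟨hn0, by omega⟩
    refine hn.2 ?_
    have h4 : (fun m => Lt.mkQ (vv w l 1 m)) (n * 1 + 0) = 0 := by
      show Lt.mkQ (vv w l 1 (n * 1 + 0)) = 0
      rw [vv, div_code Nat.one_pos]
      show Lt.mkQ (1 * lam l n) = 0
      rw [one_mul]
      exact (Submodule.Quotient.mk_eq_zero Lt).2 (h.mem' (mem_Q1_of_Sk h3))
    rw [h4]
    exact Submodule.zero_mem _
  · intro F hF u hsum n hn
    have h3 := indepM w 1 S F (fun n hn i hi => by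
      have : i = 0 := by omega
      rw [this]; exact hF n hn) (fun _ n => u n) (by
      refine (congrArg (· ∈ Lt) ?_).mpr hsum
      refine Finset.sum_congr rfl fun n _ => ?_
      rw [Finset.range_one, Finset.sum_singleton, Algebra.smul_def]
      show (u n : Cc) * 1 * lam l n = _
      rw [mul_one])
    exact h3 n hn 0 Nat.one_pos

end Pool.Agent.Q147.MM
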