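import Pool.Agent.Q147.MM.Main

/-!
# One set for countably many coefficient spaces
-/

set_option autoImplicit false

namespace Pool.Agent.Q147.MM

open Module Finset Filter Topology
open Pool.Agent.Y787 (QC mem_QC HypC)

/-- **Diagonal sets.** -/
theorem diag (S : Set ℕ) (hS : ∀ᶠ N in atTop, 0 < cnt S N) (B : ℕ → Set ℕ)
    (hB : ∀ m, B m ⊆ S)
    (h : ∀ m, Tendsto (fun N : ℕ => (cnt (B m) N : ℝ) / cnt S N) atTop (𝓝 1)) :
    ∃ C : Set ℕ, C ⊆ B 0 ∧ Tendsto (fun N : ℕ => (cnt C N : ℝ) / cnt S N) atTop (𝓝 1) ∧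
      ∀ m, ∃ n₀ : ℕ, ∀ n ∈ C, n₀ ≤ n → n ∈ B m := by
  classical
  -- decreasing intersections
  let D : ℕ → Set ℕ := fun m => {n | n ∈ S ∧ ∀ i < m + 1, n ∈ B i}
  have hD : ∀ m, Tendsto (fun N : ℕ => (cnt (D m) N : ℝ) / cnt S N) atTop (𝓝 1) := fun m =>
    inter (m + 1) B S (fun i _ => hB i) hS (fun i _ => h i)
  have hthr : ∀ m : ℕ, ∃ t : ℕ, ∀ N : ℕ, t ≤ N → 0 < cnt S N ∧
      1 - 1 / ((m : ℝ) + 1) < (cnt (D m) N : ℝ) / cnt S N := by
    intro m
    have h1 : ∀ᶠ N : ℕ in atTop, 0 < cnt S N ∧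
        1 - 1 / ((m : ℝ) + 1) < (cnt (D m) N : ℝ) / cnt S N := by
      refine hS.and ((tendsto_order.1 (hD m)).1 _ ?_)
      have : (0 : ℝ) < 1 / ((m : ℝ) + 1) := by positivity
      linarith
    exact eventually_atTop.1 h1
  choose t ht using hthr
  let M : ℕ → ℕ := fun m => m + ∑ j ∈ range (m + 1), t j
  have hMt : ∀ m, t m ≤ M m := fun m =>
    (Finset.single_le_sum (f := t) (fun _ _ => Nat.zero_le _)
      (Finset.mem_range.2 (Nat.lt_succ_self m))).trans (Nat.le_add_left _ _)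
  have hMm : ∀ m, m ≤ M m := fun m => Nat.le_add_right _ _
  have hMmono : StrictMono M := by
    refine strictMono_nat_of_lt_succ fun m => ?_
    show m + ∑ j ∈ range (m + 1), t j < m + 1 + ∑ j ∈ range (m + 1 + 1), t j
    rw [Finset.sum_range_succ t (m + 1)]
    omega
  let C : Set ℕ := {n | n ∈ B 0 ∧ n ∈ S ∧ ∀ m, M m ≤ n → n ∈ D m}
  have key : ∀ N j : ℕ, M j ≤ N → N < M (j + 1) →
      1 - 1 / ((j : ℝ) + 1) < (cnt C N : ℝ) / cnt S N := by
    intro N j hj hj1
    have h1 := ht j N ((hMt j).trans hj)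
    have hpos : (0 : ℝ) < cnt S N := by exact_mod_cast h1.1
    refine h1.2.trans_le (div_le_div_of_nonneg_right ?_ hpos.le)
    have h2 : upto (D j) N ⊆ upto C N := by
      intro n hn
      rw [mem_upto] at hn ⊢
      refine ⟨hn.1, hn.2.2 0 (Nat.succ_pos j), hn.2.1, fun m hm => ?_⟩
      have h3 : m ≤ j := by
        by_contra h4
        have h5 : M (j + 1) ≤ M m := hMmono.monotone (by omega)
        have := hn.1.2
        omega
      exact ⟨hn.2.1, fun i hi => hn.2.2 i (by omega)⟩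
    exact_mod_cast Finset.card_le_card h2
  refine ⟨C, fun n hn => hn.1, ?_, fun m => ⟨M m, fun n hn hmn =>
    (hn.2.2 m hmn).2 m (Nat.lt_succ_self m)⟩⟩
  rw [tendsto_order]
  constructor
  · intro a ha
    obtain ⟨m, hm⟩ := exists_nat_one_div_lt (show (0 : ℝ) < 1 - a by linarith)
    filter_upwards [eventually_ge_atTop (M m)] with N hN
    -- the block of `N`
    obtain ⟨j, hj1, hj2⟩ : ∃ j, M j ≤ N ∧ N < M (j + 1) := by
      have hex : ∃ j, N < M (j + 1) := ⟨N, (Nat.lt_succ_self N).trans_le (hMm (N + 1))⟩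
      refine ⟨Nat.find hex, ?_, Nat.find_spec hex⟩
      rcases Nat.eq_zero_or_pos (Nat.find hex) with h0 | h0
      · rw [h0]
        exact (hMmono.monotone (Nat.zero_le m)).trans hN
      · have := Nat.find_min hex (m := Nat.find hex - 1) (by omega)
        have h1 : Nat.find hex - 1 + 1 = Nat.find hex := by omega
        rw [h1] at this
        omega
    have hmj : m ≤ j := by
      by_contra h4
      have h5 : M (j + 1) ≤ M m := hMmono.monotone (by omega)
      omega
    have h3 := key N j hj1 hj2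
    have h4 : 1 / ((j : ℝ) + 1) ≤ 1 / ((m : ℝ) + 1) := by
      apply one_div_le_one_div_of_le (by positivity)
      have : (m : ℝ) ≤ j := by exact_mod_cast hmj
      linarith
    linarith
  · intro a ha
    refine Eventually.of_forall fun N => lt_of_le_of_lt ?_ ha
    apply div_le_one_of_le₀ _ (Nat.cast_nonneg _)
    exact_mod_cast cnt_le (A := C) (fun n hn => hn.2.1) N

variable {Cc : Type} [Field Cc] [CharZero Cc] {Lt : Submodule (QC Cc) Cc} [HypC Lt] {l : ℕ → Cc}

/-- **Degree at most `k + 1`, one set for all spaces spanned by elements of a countable set.** -/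
theorem mainSeq (h : Good Lt l) (w : ℕ → Cc) (k : ℕ) (hk : 1 ≤ k) :
    ∃ B : Set ℕ, (∀ n ∈ B, 2 ≤ ArithmeticFunction.cardFactors n ∧
        ArithmeticFunction.cardFactors n ≤ k + 1) ∧
      Tendsto (fun N : ℕ => (cnt B N : ℝ) / cnt (Sk (k + 1)) N) atTop (𝓝 1) ∧
      ∀ W : Submodule (QC Cc) Cc, FiniteDimensional (QC Cc) W →
        W ≤ Submodule.span (QC Cc) (Set.range w) → ∃ n₀ : ℕ,
        ∀ F : Finset ℕ, (∀ n ∈ F, n ∈ B ∧ n₀ ≤ n) → ∀ u : ℕ → Cc, (∀ n ∈ F, u n ∈ W) →
          ∑ n ∈ F, u n * lam l n ∈ Lt → ∀ n ∈ F, u n = 0 := by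
  let W : ℕ → Submodule (QC Cc) Cc := fun m =>
    Submodule.span (QC Cc) (w '' ((range m : Finset ℕ) : Set ℕ))
  have hWf : ∀ m, FiniteDimensional (QC Cc) (W m) := fun m =>
    FiniteDimensional.span_of_finite _ ((range m).finite_toSet.image _)
  have h1 := fun m => mainW h (W m) k hk
  choose B hB1 hB2 hB3 using h1
  have hBS : ∀ m, B m ⊆ Sk (k + 1) := fun m n hn =>
    ⟨fun h0 => by
      have := (hB1 m n hn).1
      rw [h0] at this
      simp at this, (hB1 m n hn).2⟩
  obtain ⟨C, hC0, hC1, hC2⟩ := diag (Sk (k + 1)) (Sk_pos (k + 1)) B hBS hB2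
  refine ⟨C, fun n hn => hB1 0 n (hC0 hn), hC1, fun V hV hVw => ?_⟩
  -- `V` is contained in some `W m`
  obtain ⟨m, hm⟩ : ∃ m, V ≤ W m := by
    obtain ⟨s, hs⟩ := (Submodule.fg_iff_finiteDimensional V).2 hV
    have hmono : Monotone W := fun a b hab => Submodule.span_mono
      (Set.image_mono (by exact_mod_cast Finset.range_mono hab))
    have h2 : ∀ x ∈ s, ∃ m, x ∈ W m := by
      intro x hx
      have h3 : x ∈ Submodule.span (QC Cc) (Set.range w) := hVw (by
        rw [← hs]; exact Submodule.subset_span hx)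
      have h4 : Submodule.span (QC Cc) (Set.range w) ≤ ⨆ m, W m := by
        rw [Submodule.span_le]
        rintro _ ⟨i, rfl⟩
        exact (le_iSup W (i + 1)) (Submodule.subset_span ⟨i, by simp, rfl⟩)
      exact (Submodule.mem_iSup_of_directed W hmono.directed_le).1 (h4 h3)
    choose! f hf using h2
    refine ⟨s.sup f, ?_⟩
    rw [← hs, Submodule.span_le]
    intro x hx
    exact hmono (Finset.le_sup (f := f) hx) (hf x hx)
  obtain ⟨n0, hn0⟩ := hC2 m
  exact ⟨n0, fun F hF u hu hsum => hB3 m F (fun n hn => hn0 n (hF n hn).1 (hF n hn).2) u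
    (fun n hn => hm (hu n hn)) hsum⟩

end Pool.Agent.Q147.MM
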