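import Pool.Agent.Q147.MM.Defs

/-!
# Project MM: statements of the lemma jobs

Known tools (import them in your file if needed, they are on main):
* `Pool.Agent.Cov.PNT.pi_tendsto` in `Pool/Agent/Cov/PNT.lean` (prime number theorem):
  `Tendsto (fun x : ℝ => (Nat.primeCounting ⌊x⌋₊ : ℝ) * Real.log x / x) atTop (𝓝 1)`.
* `Pool.Agent.Erdos456.Mert.mertens_inv` in `Pool/Agent/Erdos456/Mertens.lean`:
  `∃ C : ℝ, ∀ N : ℕ, 3 ≤ N →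
    |∑ p ∈ (Finset.Icc 1 N).filter Nat.Prime, (1 : ℝ) / p - Real.log (Real.log N)| ≤ C`.
-/

set_option autoImplicit false

namespace Pool.Agent.Q147.MM

open Finset Filter Topology

/-- CHEB. Chebyshev. Proof: by `pi_tendsto` (take `x = N`) the quotient
`q N = π(N) * log N / N` tends to `1`, so `1/2 ≤ q N ≤ 2` for `N ≥ N0`; for the finitely many
`2 ≤ N < N0` the quotient is positive (`π(N) ≥ 1`, `log N > 0`), so it lies between two positive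
constants (take the minimum and the maximum of the finitely many values together with `1/2`, `2`;
or use induction on `N0`). -/
def S_CHEB : Prop := ∃ c C : ℝ, 0 < c ∧ 0 < C ∧ ∀ N : ℕ, 2 ≤ N →
  c * (N / Real.log N) ≤ (Nat.primeCounting N : ℝ) ∧
    (Nat.primeCounting N : ℝ) ≤ C * (N / Real.log N)

/-- A1. Lower bound for the sum of `1 / (y (log y)^κ log (N/y))`.
Proof. Write `L = log N`, `h_i(t) = (log t)^(i+1-κ)/(i+1-κ)`, `φ_i(t) = (log t)^(i-κ)/t`, so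
`h_i' = φ_i` for `t > 1`, and `φ_i` is antitone on `[e^I, ∞)` for `i < I` (its derivative is
`(log t)^(i-κ-1) (i - κ - log t)/t²`). Let `y2 = max y1 ⌈e^I⌉ + 1`. For `y ≥ y2` and `i < I` the
mean value theorem on `[y, y+1]` gives `φ_i(y) ≥ h_i(y+1) - h_i(y)`; summing over `y2 < y ≤ z`
(telescoping) `∑ φ_i(y) ≥ h_i(z+1) - h_i(y2+1)`.
For `1 < y < N`, with `l = log y ∈ (0, L)`: `log(N/y) = L - l` and
`1/(L-l) ≥ ∑_{i<I} l^i/L^(i+1)` because `(L-l) ∑_{i<I} l^i/L^(i+1) = 1 - (l/L)^I ≤ 1`.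
All terms of the given sum are `≥ 0` (here `z = zz N < N`), so the sum over `y1 < y ≤ z` is at
least `∑_{i<I} L^(-1-i) (h_i(z+1) - h_i(y2+1))` (if `z ≤ y2` the right side is `≤ 0`).
Finally `z + 1 ≥ √N/log N`, `log(z+1) ≥ L/2 - log L`, so `L^κ L^(-1-i) h_i(z+1) ≥
(1/2 - (log L)/L)^(i+1-κ)/(i+1-κ)`, which tends to `(1/2)^(i+1-κ)/(i+1-κ)`, while
`L^(κ-1-i) h_i(y2+1)` tends to `0` (`i + 1 - κ > 0`). Hence `L^κ * (the sum)` is at least a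
quantity tending to `P = ∑_{i<I} (1/2)^(i+1-κ)/(i+1-κ)`, and `P > 0` if `I ≥ 1`, so it is
`≥ (1-ε) P` for `N` large; for `I = 0` the claim is that the sum is `≥ 0`. -/
def S_A1 : Prop := ∀ κ : ℝ, 0 < κ → κ < 1 → ∀ I y1 : ℕ, ∀ ε : ℝ, 0 < ε → ε < 1 →
  ∃ N1 : ℕ, ∀ N : ℕ, N1 ≤ N →
    (1 - ε) * (∑ i ∈ range I, (1 / 2 : ℝ) ^ ((i : ℝ) + 1 - κ) / ((i : ℝ) + 1 - κ)) /
        (Real.log N) ^ κ ≤
      ∑ y ∈ Ioc y1 (zz N), 1 / ((y : ℝ) * (Real.log y) ^ κ * Real.log ((N : ℝ) / y))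

/-- A2. Proof: `G(t) = t / (log t)^κ` has derivative
`(log t)^(-κ) (1 - κ/log t)` for `t > 1`. Take `y1` with `κ / log (y1 - 1) ≤ ε`, `y1 ≥ 3`. The
mean value theorem on `[y-1, y]` gives `ξ ∈ (y-1, y)` with `G(y) - G(y-1) = G'(ξ) ≥
(log ξ)^(-κ) (1-ε) ≥ (log y)^(-κ) (1-ε)`, if `ε ≤ 1`. -/
def S_A2 : Prop := ∀ κ : ℝ, 0 < κ → κ < 1 → ∀ ε : ℝ, 0 < ε → ε < 1 →
  ∃ y1 : ℕ, 3 ≤ y1 ∧ ∀ y : ℕ, y1 ≤ y →
    (1 - ε) / (Real.log y) ^ κ ≤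
      (y : ℝ) / (Real.log y) ^ κ - ((y : ℝ) - 1) / (Real.log ((y : ℝ) - 1)) ^ κ

/-- A3. Proof: for `1 ≤ y ≤ zz N` one has `N/y ≥ √N log N`, which tends to infinity uniformly in
`y`. With `x = N/y` (real) and `n = N / y` (integer division) `= ⌊x⌋₊`, `pi_tendsto` gives
`π(⌊x⌋₊) log x / x ≥ 1 - ε` for `x ≥ x0`, that is `π(N / y) ≥ (1-ε) x / log x`. (Use
`Nat.floor_div_eq_div` for `⌊(N:ℝ)/y⌋₊ = N / y`.) -/
def S_A3 : Prop := ∀ ε : ℝ, 0 < ε → ∃ N1 : ℕ, ∀ N : ℕ, N1 ≤ N → ∀ y : ℕ, 1 ≤ y → y ≤ zz N →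
  (1 - ε) * ((N : ℝ) / y) / Real.log ((N : ℝ) / y) ≤ (Nat.primeCounting (N / y) : ℝ)

/-- A4. Abel summation (lower bound). Proof: with `b y = cnt B y`, show by induction on `w` from
`y1` to `z` that
`∑ a ∈ upto B w, f a ≥ ∑ y ∈ Ioc y1 w, (g y - g (y-1)) * f y + (b w - g w) * f w`.
Base `w = y1`: `∑ a ∈ upto B y1, f a ≥ b(y1) f(y1) ≥ (b(y1) - g(y1)) f(y1)`, since `f` is
antitone on `[1, z]`, `f ≥ f z ≥ 0`, `g y1 ≥ 0`. Step: `∑ over upto B (w+1)` is the old sum plus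
`(b(w+1) - b(w)) f(w+1)` (the new term is present iff `w+1 ∈ B`), and
`(b w - g w) f w ≥ (b w - g w) f (w+1)`. At the end `(b z - g z) f z ≥ 0`. -/
def S_A4 : Prop := ∀ (B : Set ℕ) (f g : ℕ → ℝ) (y1 z : ℕ), 1 ≤ y1 → y1 ≤ z →
  (∀ y, y1 ≤ y → y ≤ z → g y ≤ cnt B y) → (∀ y, 1 ≤ y → y < z → f (y + 1) ≤ f y) → 0 ≤ f z →
  0 ≤ g y1 → ∑ y ∈ Ioc y1 z, (g y - g (y - 1)) * f y ≤ ∑ a ∈ upto B z, f a

/-- A5. Combination of A1, A2, A3, A4 (they are hypotheses here). Proof. Let `P > 1` be the sum,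
`0 < ε < 1` with `(1-ε)^3 P > 1` and `δ = (1-ε)^3 P - 1`. Take `y1` from A2, and `N` so large that
A1 (with this `y1`, `ε`, `I`) and A3 hold, `y1 ≤ zz N < N`. Put `f a = π(N / a)` (integer
division; antitone for `a ≥ 1`), `g y = c * (y / (log y)^κ)`. By A4 (`g y ≤ cnt B y` for
`y1 ≤ y ≤ zz N < N` by the hypothesis)
`∑ a ∈ upto B (zz N), f a ≥ ∑ y ∈ Ioc y1 (zz N), (g y - g (y-1)) f y`, and
`g y - g (y-1) ≥ c (1-ε) / (log y)^κ`, `f y ≥ (1-ε) (N/y) / log (N/y)`, so the sum is at least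
`c (1-ε)^2 N ∑ 1/(y (log y)^κ log (N/y)) ≥ c (1-ε)^3 P N / (log N)^κ`. -/
def S_A5 : Prop := S_A1 → S_A2 → S_A3 → S_A4 →
  ∀ κ : ℝ, 0 < κ → κ < 1 →
  (∃ I : ℕ, 1 < ∑ i ∈ range I, (1 / 2 : ℝ) ^ ((i : ℝ) + 1 - κ) / ((i : ℝ) + 1 - κ)) →
  ∃ δ : ℝ, 0 < δ ∧ ∃ N1 : ℕ, ∀ N : ℕ, N1 ≤ N → ∀ c : ℝ, 0 ≤ c → ∀ B : Set ℕ,
    (∀ y : ℕ, 2 ≤ y → y < N → c * (y / (Real.log y) ^ κ) ≤ (cnt B y : ℝ)) →
    (1 + δ) * c * (N / (Real.log N) ^ κ) ≤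
      ∑ a ∈ upto B (zz N), (Nat.primeCounting (N / a) : ℝ)

/-- A6. Conclusion of part A from the conclusion of A5 and CHEB. Proof. Let `c0` be the lower
constant of CHEB, `δ, N1` from A5, and `N0 ≥ max N1 3` with `c0 δ log N0 ≥ 1`. Put
`c = c0 (log N0)^(κ-1)`. By strong induction on `N ≥ 2`: `c N/(log N)^κ ≤ cnt B N`.
If `N ≤ N0`: `cnt B N ≥ π(N) ≥ c0 N / log N = c0 (log N)^(κ-1) N/(log N)^κ ≥ c N/(log N)^κ`, as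
`κ - 1 < 0` and `0 < log N ≤ log N0`. If `N > N0`: by A5 with the induction hypothesis and the
hypothesis of the theorem with `z = zz N`,
`cnt B N ≥ (1+δ) c N/(log N)^κ - (zz N)^2`, and `(zz N)^2 ≤ N/(log N)^2`, while
`δ c N/(log N)^κ ≥ N/(log N)^2` iff `δ c0 (log N0)^(κ-1) ≥ (log N)^(κ-2)`, which holds because
`(log N)^(κ-2) ≤ (log N0)^(κ-2)` and `δ c0 log N0 ≥ 1`. -/
def S_A6 : Prop := S_CHEB → ∀ κ : ℝ, 0 < κ → κ < 1 →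
  (∃ δ : ℝ, 0 < δ ∧ ∃ N1 : ℕ, ∀ N : ℕ, N1 ≤ N → ∀ c : ℝ, 0 ≤ c → ∀ B : Set ℕ,
    (∀ y : ℕ, 2 ≤ y → y < N → c * (y / (Real.log y) ^ κ) ≤ (cnt B y : ℝ)) →
    (1 + δ) * c * (N / (Real.log N) ^ κ) ≤
      ∑ a ∈ upto B (zz N), (Nat.primeCounting (N / a) : ℝ)) →
  ∀ B : Set ℕ, (∀ N : ℕ, Nat.primeCounting N ≤ cnt B N) →
    (∀ z N : ℕ, ∑ a ∈ upto B z, Nat.primeCounting (N / a) ≤ cnt B N + z ^ 2) →
    ∃ c : ℝ, 0 < c ∧ ∀ N : ℕ, 2 ≤ N → c * (N / (Real.log N) ^ κ) ≤ (cnt B N : ℝ)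

/-- A7. The exponent `9/40`. Proof: ten terms. `(1/2)^(i+1-9/40) = (1/2)^(i+1) * 2^(9/40)` and
`2^(9/40) ≥ 1.168` because `1.168^40 ≤ 2^9 = 512`; the needed constant is
`1 / ∑_{i<10} 1/(2^(i+1) (i + 31/40)) = 1.16437...`. Use
`Real.rpow_natCast`, `Real.le_rpow_inv_iff_of_pos` or `(Real.pow_le_pow_left...)`. The final sum
over `range 10` is evaluated by `Finset.sum_range_succ` and `norm_num`. -/
def S_A7 : Prop :=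
  1 < ∑ i ∈ range 10, (1 / 2 : ℝ) ^ ((i : ℝ) + 1 - 9 / 40) / ((i : ℝ) + 1 - 9 / 40)

/-- B1. Abel summation (upper bound). Proof: with `m = cnt M`, `s = cnt S`, show by induction on
`1 ≤ w ≤ z` that `∑ a ∈ upto M w, f a ≤ ε ∑ a ∈ upto S w, f a + Y f 1 + (m w - ε s w - Y) f w`.
Base `w = 1`: equality (`upto M 1` is `{1}` or empty). Step: `m w - ε s w - Y ≤ 0` and
`f w ≥ f (w+1)` give `(m w - ε s w - Y) f w ≤ (m w - ε s w - Y) f (w+1)`, and the new terms are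
`(m (w+1) - m w) f (w+1)` on the left, `ε (s (w+1) - s w) f (w+1)` on the right. At the end
`(m z - ε s z - Y) f z ≤ 0`. If `z = 0` both sums are empty and the right side is `Y f 1 ≥ 0`. -/
def S_B1 : Prop := ∀ (M S : Set ℕ) (f : ℕ → ℝ) (ε Y : ℝ) (z : ℕ), 0 ≤ Y → 0 ≤ f 1 →
  (∀ y, 1 ≤ y → y ≤ z → (cnt M y : ℝ) ≤ ε * cnt S y + Y) →
  (∀ y, 1 ≤ y → y < z → f (y + 1) ≤ f y) → 0 ≤ f z →
  ∑ a ∈ upto M z, f a ≤ ε * ∑ a ∈ upto S z, f a + Y * f 1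

/-- B2. Multiplicities. Proof: the left side is the number of pairs `(a, p)` with `a ∈ Sk k`,
`1 ≤ a ≤ z`, `p` prime, `p ≤ N / a` (use `Nat.primeCounting n = #{p ≤ n prime}`,
`Nat.primeCounting'`/`Nat.count_eq_card_filter_range` or `Nat.primesLE`). Map it to
`n = a * p ∈ upto (Sk (k+1)) N` (`Ω(ap) = Ω(a)+1`). The pair is determined by `n` and `p`, and `p`
is one of the prime factors of `n`, at most `Ω(n) ≤ k+1` many (`n.primeFactors.card ≤ Ω n`,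
`ArithmeticFunction.cardDistinctFactors`). Use `Finset.card_le_mul_card_image` or
`Finset.card_le_card_of_injOn` into `upto (Sk (k+1)) N ×ˢ ...` (sigma over `n` of
`n.primeFactors`). -/
def S_B2 : Prop := ∀ k z N : ℕ,
  ∑ a ∈ upto (Sk k) z, Nat.primeCounting (N / a) ≤ (k + 1) * cnt (Sk (k + 1)) N

/-- B3. The same for the sums of the inverses. Proof: `T k x * sp x` is the sum of `1/(a p)` over
the pairs (`a ∈ Sk k`, `a ≤ x`, `p ≤ x` prime). Group by `n = a p ≤ x^2`, `n ∈ Sk (k+1)`: each `n`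
has at most `k+1` pairs (determined by the prime factor `p`). -/
def S_B3 : Prop := ∀ k x : ℕ, T k x * sp x ≤ (k + 1) * T (k + 1) (x ^ 2)

/-- M1. Short sums over primes, from `mertens_inv`. Proof: `j ≥ 1`. Let `w` be the largest integer
with `w^j ≤ x` (so `w ≥ 1`, `x < (w+1)^j`, `x^M ≤ (w+1)^(j M)`). A prime `p` with `x < p^j` is
`> w`. So the sum is at most `1/(w+1) + ∑_{w+1 < p ≤ (w+1)^(jM)} 1/p ≤ 1 + |sp((w+1)^(jM)) -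
sp(w+1)|`; if `w + 1 ≥ 3` and `jM ≥ 1` this is at most `1 + log(log((w+1)^(jM))) - log(log(w+1)) + 2C
= 1 + log(jM) + 2C`; if `w + 1 = 2` the sum is at most `sp (2^(jM))`. (If `jM = 0`, `M = 0` and the
sum over `p ≤ 1` is empty.) -/
def S_M1 : Prop := ∀ j M : ℕ, 1 ≤ j → ∃ C : ℝ, 0 < C ∧ ∀ x : ℕ, 1 ≤ x →
  ∑ p ∈ (Icc 1 (x ^ M)).filter (fun p => Nat.Prime p ∧ x < p ^ j), (1 : ℝ) / p ≤ C

/-- D0. Sum of the inverses of the elements of `Sk (k+1)` between `x` and `y ≤ x^M`.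
Proof: let `n ∈ Sk (k+1)`, `x < n ≤ y`, `x ≥ 1`, so `n ≥ 2`; let `p` be its largest prime factor.
All the at most `k+1` prime factors of `n` are `≤ p`, so `x < n ≤ p^(k+1)`, and `n = p m` with
`m ∈ Sk k`, `m ≤ y`, `p ≤ y ≤ x^M`. The map `n ↦ (p, m)` is injective, so the sum is at most
`(∑_{p ≤ x^M, x < p^(k+1)} 1/p) * T k y ≤ C T k y` by M1 with `j = k+1`. -/
def S_D0 : Prop := S_M1 → ∀ k M : ℕ, ∃ C : ℝ, 0 < C ∧ ∀ x y : ℕ, 1 ≤ x → y ≤ x ^ M →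
  ∑ n ∈ (upto (Sk (k + 1)) y).filter (fun n => x < n), (1 : ℝ) / n ≤ C * T k y

/-- D1. Doubling, by induction on `k`. Proof: `T 0 x = 1` for `x ≥ 1` (`Sk 0 = {1}`). Step:
`T (k+1) (x^M) = ∑_{n ≤ x} + ∑_{x < n ≤ x^M} ≤ T (k+1) x + C T k (x^M) ≤ T (k+1) x + C C' T k x
≤ (1 + C C') T (k+1) x` by D0 and the induction hypothesis; `T k x ≤ T (k+1) x` because
`Sk k ⊆ Sk (k+1)`. (If `M = 0`, `x^M = 1 ≤ x`, monotonicity of `T k`.) -/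
def S_D1 : Prop := (∀ k M : ℕ, ∃ C : ℝ, 0 < C ∧ ∀ x y : ℕ, 1 ≤ x → y ≤ x ^ M →
    ∑ n ∈ (upto (Sk (k + 1)) y).filter (fun n => x < n), (1 : ℝ) / n ≤ C * T k y) →
  ∀ k M : ℕ, ∃ C : ℝ, 0 < C ∧ ∀ x : ℕ, 1 ≤ x → T k (x ^ M) ≤ C * T k x

/-- D3. `T k = o(T (k+1))`. Proof: let `w = Nat.sqrt x ≥ 2`, so `w^2 ≤ x < (w+1)^2 ≤ w^4`. By
monotonicity, doubling (conclusion of D1) and B3:
`T k x ≤ T k (w^4) ≤ C T k w ≤ C (k+1) T (k+1) (w^2) / sp w ≤ C (k+1) T (k+1) x / sp w`, and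
`sp w → ∞` (`mertens_inv`, or Mathlib's divergence of the sum of the inverses of the primes);
`T (k+1) x ≥ 1 > 0` for `x ≥ 1` since `1 ∈ Sk k`. -/
def S_D3 : Prop := S_B3 →
  (∀ k M : ℕ, ∃ C : ℝ, 0 < C ∧ ∀ x : ℕ, 1 ≤ x → T k (x ^ M) ≤ C * T k x) →
  ∀ k : ℕ, Tendsto (fun x : ℕ => T k x / T (k + 1) x) atTop (𝓝 0)

/-- C1. Lower bound for the number of elements of `Sk (k+1)`. Proof. Let `c0` be the lower constant
of CHEB, `w = Nat.sqrt N`, `N ≥ 4`. For `a ≤ w` one has `N / a ≥ w ≥ 2` (integer division) and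
`π(N / a) ≥ c0 (N / a)/log (N / a) ≥ c0 (N/a)/(2 log N)` (integer part `≥ half`). So by B2
`(k+1) cnt (Sk (k+1)) N ≥ ∑_{a ∈ upto (Sk k) w} π(N / a) ≥ (c0/2) (N/log N) T k w`, and by doubling
with `N ≤ w^4` (true for `w ≥ 2`, `N < (w+1)^2 ≤ w^4`) `T k w ≥ T k N / C`. For `N = 2, 3` the
left side is bounded and `cnt (Sk (k+1)) N ≥ 1`; or shrink the constant. -/
def S_C1 : Prop := S_CHEB → S_B2 →
  (∀ k M : ℕ, ∃ C : ℝ, 0 < C ∧ ∀ x : ℕ, 1 ≤ x → T k (x ^ M) ≤ C * T k x) →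
  ∀ k : ℕ, ∃ c : ℝ, 0 < c ∧ ∃ N1 : ℕ, ∀ N : ℕ, N1 ≤ N →
    c * (N / Real.log N) * T k N ≤ cnt (Sk (k + 1)) N

/-- The elements `n ≤ N` of `Sk k`, other than `1`, all of whose `n / p` (`p` a prime factor) are
greater than `zz N`. -/
noncomputable def Bad (k N : ℕ) : Finset ℕ := by
  classical
  exact (upto (Sk k) N).filter (fun n => n ≠ 1 ∧ ∀ p : ℕ, p.Prime → p ∣ n → zz N < n / p)

/-- R1. Upper bound for `Bad (k+2) N`. Proof. Let `n ∈ Bad (k+2) N`, `p` its largest prime factor,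
`n = m p`; then `m ∈ Sk (k+1)`, `m > zz N =: z`, and all prime factors of `m` are `≤ p`, so
`m ≤ p^(k+1)` and `m^(k+2) ≤ m^(k+1) p^(k+1) = n^(k+1) ≤ N^(k+1)`, that is `(N/m)^(k+2) ≥ N`,
`log (N/m) ≥ log N/(k+2)` (real quotient). The map `n ↦ (m, p)` is injective and `p ≤ N / m`, so
`#Bad ≤ ∑ π(N / m)` over the `m ∈ Sk (k+1)` with `z < m`, `m^(k+2) ≤ N^(k+1)`, `N / m ≥ 2`. By
CHEB `π(⌊t⌋) ≤ C ⌊t⌋ / log ⌊t⌋ ≤ 2 C t / log t` for `t ≥ 2` (`⌊t⌋ ≥ √t`: for `2 ≤ t < 3`,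
`⌊t⌋ = 2 ≥ √3`, for `t ≥ 3`, `⌊t⌋ ≥ t - 1 ≥ √t`), so `#Bad ≤ 2 C (k+2) (N/log N) ∑ 1/m` over
`m ∈ Sk (k+1)`, `z < m ≤ N`. For `N` large `z ≥ N^(1/4)`, `N ≤ z^4`, and D0 (with `x = z`, `y = N`,
`M = 4`) bounds the last sum by `C' T k N`. -/
def S_R1 : Prop := S_CHEB →
  (∀ k M : ℕ, ∃ C : ℝ, 0 < C ∧ ∀ x y : ℕ, 1 ≤ x → y ≤ x ^ M →
    ∑ n ∈ (upto (Sk (k + 1)) y).filter (fun n => x < n), (1 : ℝ) / n ≤ C * T k y) →
  ∀ k : ℕ, ∃ C : ℝ, 0 < C ∧ ∃ N1 : ℕ, ∀ N : ℕ, N1 ≤ N →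
    ((Bad (k + 2) N).card : ℝ) ≤ C * (N / Real.log N) * T k N

/-- R2. Every `n ∈ Sk (k+1)`, `n ≤ N`, `n ≠ 1`, not in `Bad (k+1) N` is `a p` with `p` prime and
`a = n / p ≤ zz N`, `a ∈ Sk k`, `p ≤ N / a`. Choosing one such `p` for each `n` gives an injection
`n ↦ (a, p)` into the pairs counted by the sum. -/
def S_R2 : Prop := ∀ k N : ℕ, cnt (Sk (k + 1)) N ≤
  1 + ∑ a ∈ upto (Sk k) (zz N), Nat.primeCounting (N / a) + (Bad (k + 1) N).card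

/-- B4. `Bad (k+1) N`, `π(N)` (for `k ≥ 1`) and `(zz N)^2` are negligible against
`cnt (Sk (k+1)) N`. Proof of the second claim: `k ≥ 1`; `Bad (k+1) N ≤ C (N/log N) T (k-1) N` (R1)
against `cnt ≥ c (N/log N) T k N` (C1) and D3. Third: `π(N) ≤ C N/log N`, `T k N ≥ T 1 N ≥ sp N`
(every prime is in `Sk 1`), which tends to infinity. First: `(zz N)^2 ≤ N/(log N)^2` and
`cnt (Sk (k+1)) N ≥ π(N) ≥ c N/log N` (every prime is in `Sk (k+1)`). -/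
def S_B4 : Prop := S_CHEB →
  (∀ k : ℕ, ∃ c : ℝ, 0 < c ∧ ∃ N1 : ℕ, ∀ N : ℕ, N1 ≤ N →
    c * (N / Real.log N) * T k N ≤ cnt (Sk (k + 1)) N) →
  (∀ k : ℕ, ∃ C : ℝ, 0 < C ∧ ∃ N1 : ℕ, ∀ N : ℕ, N1 ≤ N →
    ((Bad (k + 2) N).card : ℝ) ≤ C * (N / Real.log N) * T k N) →
  (∀ k : ℕ, Tendsto (fun x : ℕ => T k x / T (k + 1) x) atTop (𝓝 0)) →
  (∀ k : ℕ, Tendsto (fun N : ℕ => ((zz N : ℝ) ^ 2) / cnt (Sk (k + 1)) N) atTop (𝓝 0)) ∧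
  (∀ k : ℕ, 1 ≤ k →
    Tendsto (fun N : ℕ => ((Bad (k + 1) N).card : ℝ) / cnt (Sk (k + 1)) N) atTop (𝓝 0)) ∧
  (∀ k : ℕ, 1 ≤ k →
    Tendsto (fun N : ℕ => (Nat.primeCounting N : ℝ) / cnt (Sk (k + 1)) N) atTop (𝓝 0))

/-- B5. Conclusion of part B. Proof by induction on `k ≥ 1`; `k = 1`: the quotient is `1` for
`N ≥ 1`. Step `k → k+1`, `k ≥ 1`. Let `ε > 0`, `s = cnt (Sk k)`, `M = Sk k \ A k`, so
`cnt M y = s y - cnt (A k) y`, and by the induction hypothesis `cnt M y ≤ ε s y` for `y ≥ Y`, hence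
`cnt M y ≤ ε s y + Y` for all `y ≥ 1`. With `z = zz N`, `f a = π(N / a)` (antitone for `a ≥ 1`),
B1 gives `∑_{a ∈ upto M z} f a ≤ ε ∑_{a ∈ upto (Sk k) z} f a + Y π(N)`. So
`cnt (A (k+1)) N ≥ ∑_{a ∈ upto (A k) z} f a - z^2 = ∑_{upto (Sk k) z} f - ∑_{upto M z} f - z^2
≥ (1-ε) ∑_{upto (Sk k) z} f - Y π(N) - z^2`, and by R2
`∑_{upto (Sk k) z} f ≥ cnt (Sk (k+1)) N - 1 - #Bad (k+1) N`. Dividing by `cnt (Sk (k+1)) N`
(`→ ∞`, as `≥ π(N)/o(1)`) all error terms tend to `0`, so the lower limit of the quotient is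
`≥ 1 - ε` for every `ε`; the quotient is `≤ 1` since `A (k+1) ⊆ Sk (k+1)`. -/
def S_B5 : Prop := S_B1 → S_R2 →
  (∀ k : ℕ, Tendsto (fun N : ℕ => ((zz N : ℝ) ^ 2) / cnt (Sk (k + 1)) N) atTop (𝓝 0)) →
  (∀ k : ℕ, 1 ≤ k →
    Tendsto (fun N : ℕ => ((Bad (k + 1) N).card : ℝ) / cnt (Sk (k + 1)) N) atTop (𝓝 0)) →
  (∀ k : ℕ, 1 ≤ k →
    Tendsto (fun N : ℕ => (Nat.primeCounting N : ℝ) / cnt (Sk (k + 1)) N) atTop (𝓝 0)) →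
  ∀ A : ℕ → Set ℕ, (∀ k, A k ⊆ Sk k) → A 1 = Sk 1 →
    (∀ k z N : ℕ, ∑ a ∈ upto (A k) z, Nat.primeCounting (N / a) ≤ cnt (A (k + 1)) N + z ^ 2) →
    ∀ k, 1 ≤ k → Tendsto (fun N : ℕ => (cnt (A k) N : ℝ) / cnt (Sk k) N) atTop (𝓝 1)

end Pool.Agent.Q147.MM
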