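import Pool.Agent.Q147.MM.Stm

/-!
# Project MM: two more lemma jobs
-/

set_option autoImplicit false

namespace Pool.Agent.Q147.MM

open Finset Filter Topology

/-- B6. The induction step of S_B5 with an additional error `π(N)`. Proof. Let `ε > 0`,
`M = Sk k \ A`, so `cnt M y = cnt (Sk k) y - cnt A y`, and by the hypothesis on the quotient
`cnt M y ≤ ε cnt (Sk k) y` for `y ≥ Y`, hence `cnt M y ≤ ε cnt (Sk k) y + Y` for all `y ≥ 1`. With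
`z = zz N`, `f a = π(N / a)` (antitone for `a ≥ 1`), B1 gives
`∑_{a ∈ upto M z} f a ≤ ε ∑_{a ∈ upto (Sk k) z} f a + Y π(N)`. So
`cnt A' N ≥ ∑_{a ∈ upto A z} f a - π(N) - z^2 = ∑_{upto (Sk k) z} f - ∑_{upto M z} f - π(N) - z^2
≥ (1-ε) ∑_{upto (Sk k) z} f - (Y+1) π(N) - z^2`, and by R2
`∑_{upto (Sk k) z} f ≥ cnt (Sk (k+1)) N - 1 - #Bad (k+1) N`. Dividing by `cnt (Sk (k+1)) N`
(which tends to infinity: `1 ≤ π(N)` for `N ≥ 2` and `π(N)` is negligible) all error terms tend to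
`0`, so the lower limit of the quotient is `≥ 1 - ε` for every `0 < ε < 1`; the quotient is `≤ 1`
since `A' ⊆ Sk (k+1)`. -/
def S_B6 : Prop := S_B1 → S_R2 →
  (∀ k : ℕ, Tendsto (fun N : ℕ => ((zz N : ℝ) ^ 2) / cnt (Sk (k + 1)) N) atTop (𝓝 0)) →
  (∀ k : ℕ, 1 ≤ k →
    Tendsto (fun N : ℕ => ((Bad (k + 1) N).card : ℝ) / cnt (Sk (k + 1)) N) atTop (𝓝 0)) →
  (∀ k : ℕ, 1 ≤ k →
    Tendsto (fun N : ℕ => (Nat.primeCounting N : ℝ) / cnt (Sk (k + 1)) N) atTop (𝓝 0)) →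
  ∀ k : ℕ, 1 ≤ k → ∀ A A' : Set ℕ, A ⊆ Sk k → A' ⊆ Sk (k + 1) →
    Tendsto (fun N : ℕ => (cnt A N : ℝ) / cnt (Sk k) N) atTop (𝓝 1) →
    (∀ z N : ℕ, ∑ a ∈ upto A z, Nat.primeCounting (N / a) ≤
      cnt A' N + Nat.primeCounting N + z ^ 2) →
    Tendsto (fun N : ℕ => (cnt A' N : ℝ) / cnt (Sk (k + 1)) N) atTop (𝓝 1)

/-- A8. One more step after A6. Proof. By the hypothesis (the conclusion of A5) with `B`, `c`: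
for `N ≥ max N1 2`, `cnt B' N ≥ (1+δ) c N/(log N)^κ - π(N) - (zz N)^2`, with
`π(N) ≤ C N/log N` (CHEB), `(zz N)^2 ≤ N/(log N)^2 ≤ N/log N` (`N ≥ 3`), and
`(C+1) N/log N ≤ c N/(log N)^κ` as soon as `(log N)^(1-κ) ≥ (C+1)/c`, true for `N` large because
`κ < 1`. So `cnt B' N ≥ δ c N/(log N)^κ`. -/
def S_A8 : Prop := S_CHEB → ∀ κ : ℝ, 0 < κ → κ < 1 →
  (∃ δ : ℝ, 0 < δ ∧ ∃ N1 : ℕ, ∀ N : ℕ, N1 ≤ N → ∀ c : ℝ, 0 ≤ c → ∀ B : Set ℕ,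
    (∀ y : ℕ, 2 ≤ y → y < N → c * (y / (Real.log y) ^ κ) ≤ (cnt B y : ℝ)) →
    (1 + δ) * c * (N / (Real.log N) ^ κ) ≤
      ∑ a ∈ upto B (zz N), (Nat.primeCounting (N / a) : ℝ)) →
  ∀ B B' : Set ℕ,
    (∃ c : ℝ, 0 < c ∧ ∀ N : ℕ, 2 ≤ N → c * (N / (Real.log N) ^ κ) ≤ (cnt B N : ℝ)) →
    (∀ z N : ℕ, ∑ a ∈ upto B z, Nat.primeCounting (N / a) ≤
      cnt B' N + Nat.primeCounting N + z ^ 2) →
    ∃ c : ℝ, 0 < c ∧ ∃ N0 : ℕ, ∀ N : ℕ, N0 ≤ N → c * (N / (Real.log N) ^ κ) ≤ (cnt B' N : ℝ)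

end Pool.Agent.Q147.MM
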